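import Pool.Agent.Lib.Interval.Exp

/-!
Interval automatic differentiation in three variables and a kernel checked
branch and bound procedure for inequalities between elementary functions.
-/

namespace IA

/-- expressions in three real variables -/
inductive E where
  | cst (p : ℤ) (q : ℕ)
  | x0 | x1 | x2
  | add (a b : E)
  | sub (a b : E)
  | mul (a b : E)
  | div (a b : E)
  | log (a : E)
  | exp (a : E)

/-- the value of an expression -/
noncomputable def E.ev : E → ℝ → ℝ → ℝ → ℝ
  | .cst p q, _, _, _ => (p : ℝ) / (q : ℝ)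
  | .x0, x, _, _ => x
  | .x1, _, y, _ => y
  | .x2, _, _, z => z
  | .add a b, x, y, z => a.ev x y z + b.ev x y z
  | .sub a b, x, y, z => a.ev x y z - b.ev x y z
  | .mul a b, x, y, z => a.ev x y z * b.ev x y z
  | .div a b, x, y, z => a.ev x y z / b.ev x y z
  | .log a, x, y, z => Real.log (a.ev x y z)
  | .exp a, x, y, z => Real.exp (a.ev x y z)

/-- value and three partial derivatives -/
structure D where
  v : I
  a : I
  b : I
  c : I

def zeroI : I := ⟨0, 0⟩
def oneI : I := ⟨1099511627776, 1099511627776⟩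
def cstI (p : ℤ) (q : ℕ) : I :=
  ⟨fdv (Int.mul p 1099511627776) q, Int.add (fdv (Int.mul p 1099511627776) q) 1⟩

def posI (a : I) : Bool := match a.lo with
  | Int.ofNat n => Nat.ble 1 n
  | Int.negSucc _ => false

/-- interval evaluation -/
def vl (X Y Z : I) : E → Option I
  | .cst p q => cond (Nat.ble 1 q) (some (cstI p q)) none
  | .x0 => some X
  | .x1 => some Y
  | .x2 => some Z
  | .add a b =>
    match vl X Y Z a, vl X Y Z b with
    | some f, some g => some (add f g)
    | _, _ => none
  | .sub a b =>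
    match vl X Y Z a, vl X Y Z b with
    | some f, some g => some (sub f g)
    | _, _ => none
  | .mul a b =>
    match vl X Y Z a, vl X Y Z b with
    | some f, some g => some (mul f g)
    | _, _ => none
  | .div a b =>
    match vl X Y Z a, vl X Y Z b with
    | some f, some g => cond (posI g) (some (div f g)) none
    | _, _ => none
  | .log a =>
    match vl X Y Z a with
    | some f => cond (posI f) (some (log f)) none
    | _ => none
  | .exp a =>
    match vl X Y Z a with
    | some f => some (exp f)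
    | _ => none

/-- interval automatic differentiation -/
def ad (X Y Z : I) : E → Option D
  | .cst p q => cond (Nat.ble 1 q) (some ⟨cstI p q, zeroI, zeroI, zeroI⟩) none
  | .x0 => some ⟨X, oneI, zeroI, zeroI⟩
  | .x1 => some ⟨Y, zeroI, oneI, zeroI⟩
  | .x2 => some ⟨Z, zeroI, zeroI, oneI⟩
  | .add a b =>
    match ad X Y Z a, ad X Y Z b with
    | some f, some g => some ⟨add f.v g.v, add f.a g.a, add f.b g.b, add f.c g.c⟩
    | _, _ => none
  | .sub a b =>
    match ad X Y Z a, ad X Y Z b with
    | some f, some g => some ⟨sub f.v g.v, sub f.a g.a, sub f.b g.b, sub f.c g.c⟩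
    | _, _ => none
  | .mul a b =>
    match ad X Y Z a, ad X Y Z b with
    | some f, some g => some ⟨mul f.v g.v, add (mul f.a g.v) (mul f.v g.a),
        add (mul f.b g.v) (mul f.v g.b), add (mul f.c g.v) (mul f.v g.c)⟩
    | _, _ => none
  | .div a b =>
    match ad X Y Z a, ad X Y Z b with
    | some f, some g =>
      cond (posI g.v)
      (some ⟨div f.v g.v, div (sub f.a (mul (div f.v g.v) g.a)) g.v,
        div (sub f.b (mul (div f.v g.v) g.b)) g.v, div (sub f.c (mul (div f.v g.v) g.c)) g.v⟩) none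
    | _, _ => none
  | .log a =>
    match ad X Y Z a with
    | some f => cond (posI f.v) (some ⟨log f.v, div f.a f.v, div f.b f.v, div f.c f.v⟩) none
    | _ => none
  | .exp a =>
    match ad X Y Z a with
    | some f => some ⟨exp f.v, mul (exp f.v) f.a, mul (exp f.v) f.b, mul (exp f.v) f.c⟩
    | _ => none

theorem posI_pos {a : I} (h : posI a = true) : 0 < a.lo := by
  unfold posI at h
  split at h
  · rename_i n hn
    rw [hn]
    rw [Nat.ble_eq] at h
    have h2 : 0 < n := Nat.lt_of_lt_of_le Nat.zero_lt_one h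
    exact Int.natCast_pos.2 h2
  · exact absurd h (by simp)

theorem zero_mem : zeroI.Mem 0 := by
  constructor <;> simp [zeroI]
theorem one_mem : oneI.Mem 1 := by
  constructor <;> simp [oneI]

theorem cst_mem (p : ℤ) {q : ℕ} (hq : 0 < q) : (cstI p q).Mem ((p : ℝ) / q) := by
  have hqR : (0 : ℝ) < q := by exact_mod_cast hq
  have h1 := fdv_le (p * 1099511627776) q hq
  have h2 := lt_fdv (p * 1099511627776) q hq
  have e1 : (cstI p q).lo = fdv (p * 1099511627776) q := rfl
  have e2 : (cstI p q).hi = fdv (p * 1099511627776) q + 1 := rfl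
  constructor
  · rw [e1, div_mul_eq_mul_div, le_div_iff₀ hqR]
    push_cast at h1; exact h1
  · rw [e2, div_mul_eq_mul_div, div_le_iff₀ hqR]
    push_cast at h2 ⊢; exact h2.le

theorem pos_of_mem {x : ℝ} {a : I} (h : a.Mem x) (ha : 0 < a.lo) : 0 < x := by
  obtain ⟨h1, h2⟩ := h
  have hal : (0 : ℝ) < (a.lo : ℝ) := by exact_mod_cast ha
  by_contra hx
  have : x * 1099511627776 ≤ 0 := by nlinarith
  linarith

theorem vl_sound {X Y Z : I} {x y z : ℝ} (hx : X.Mem x) (hy : Y.Mem y) (hz : Z.Mem z) :
    ∀ (e : E) (f : I), vl X Y Z e = some f → f.Mem (e.ev x y z) := by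
  intro e
  induction e with
  | cst p q =>
    intro f h
    cases hq : Nat.ble 1 q
    · simp [vl, hq] at h
    · simp only [vl, hq, cond_true, Option.some.injEq] at h
      rw [← h]
      exact cst_mem p (by rwa [Nat.ble_eq] at hq)
  | x0 => intro f h; simp only [vl, Option.some.injEq] at h; rw [← h]; exact hx
  | x1 => intro f h; simp only [vl, Option.some.injEq] at h; rw [← h]; exact hy
  | x2 => intro f h; simp only [vl, Option.some.injEq] at h; rw [← h]; exact hz
  | add a b iha ihb =>
    intro f h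
    simp only [vl] at h
    split at h
    · rename_i u w hu hw
      simp only [Option.some.injEq] at h
      rw [← h]; exact add_mem (iha _ hu) (ihb _ hw)
    · exact absurd h (by simp)
  | sub a b iha ihb =>
    intro f h
    simp only [vl] at h
    split at h
    · rename_i u w hu hw
      simp only [Option.some.injEq] at h
      rw [← h]; exact sub_mem (iha _ hu) (ihb _ hw)
    · exact absurd h (by simp)
  | mul a b iha ihb =>
    intro f h
    simp only [vl] at h
    split at h
    · rename_i u w hu hw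
      simp only [Option.some.injEq] at h
      rw [← h]; exact mul_mem (iha _ hu) (ihb _ hw)
    · exact absurd h (by simp)
  | div a b iha ihb =>
    intro f h
    simp only [vl] at h
    split at h
    · rename_i u w hu hw
      cases hp : posI w
      · simp [hp] at h
      · simp only [hp, cond_true, Option.some.injEq] at h
        rw [← h]; exact div_mem (iha _ hu) (ihb _ hw) (posI_pos hp)
    · exact absurd h (by simp)
  | log a iha =>
    intro f h
    simp only [vl] at h
    split at h
    · rename_i u hu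
      cases hp : posI u
      · simp [hp] at h
      · simp only [hp, cond_true, Option.some.injEq] at h
        rw [← h]; exact log_mem (iha _ hu) (posI_pos hp)
    · exact absurd h (by simp)
  | exp a iha =>
    intro f h
    simp only [vl] at h
    split at h
    · rename_i u hu
      simp only [Option.some.injEq] at h
      rw [← h]; exact exp_mem (iha _ hu)
    · exact absurd h (by simp)

/-- the function `u` has a derivative at `s` which lies in the interval `A` -/
def Dv (u : ℝ → ℝ) (s : ℝ) (A : I) : Prop := ∃ d, HasDerivAt u d s ∧ A.Mem d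

theorem Dv.cst {s c : ℝ} : Dv (fun _ => c) s zeroI := ⟨0, hasDerivAt_const s c, zero_mem⟩
theorem Dv.id {s : ℝ} : Dv (fun t => t) s oneI := ⟨1, hasDerivAt_id s, one_mem⟩

theorem Dv.add {u w : ℝ → ℝ} {s : ℝ} {A B : I} (hu : Dv u s A) (hw : Dv w s B) :
    Dv (fun t => u t + w t) s (add A B) := by
  obtain ⟨d, h1, h2⟩ := hu
  obtain ⟨e, h3, h4⟩ := hw
  exact ⟨d + e, h1.add h3, add_mem h2 h4⟩

theorem Dv.sub {u w : ℝ → ℝ} {s : ℝ} {A B : I} (hu : Dv u s A) (hw : Dv w s B) :
    Dv (fun t => u t - w t) s (sub A B) := by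
  obtain ⟨d, h1, h2⟩ := hu
  obtain ⟨e, h3, h4⟩ := hw
  exact ⟨d - e, h1.sub h3, sub_mem h2 h4⟩

theorem Dv.mul {u w : ℝ → ℝ} {s : ℝ} {V W A B : I} (hv : V.Mem (u s)) (hv' : W.Mem (w s))
    (hu : Dv u s A) (hw : Dv w s B) :
    Dv (fun t => u t * w t) s (IA.add (IA.mul A W) (IA.mul V B)) := by
  obtain ⟨d, h1, h2⟩ := hu
  obtain ⟨e, h3, h4⟩ := hw
  exact ⟨d * w s + u s * e, h1.mul h3, add_mem (mul_mem h2 hv') (mul_mem hv h4)⟩

theorem Dv.div {u w : ℝ → ℝ} {s : ℝ} {V W A B : I} (hv : V.Mem (u s)) (hv' : W.Mem (w s))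
    (hW : 0 < W.lo) (hu : Dv u s A) (hw : Dv w s B) :
    Dv (fun t => u t / w t) s (IA.div (IA.sub A (IA.mul (IA.div V W) B)) W) := by
  obtain ⟨d, h1, h2⟩ := hu
  obtain ⟨e, h3, h4⟩ := hw
  have hpos : 0 < w s := pos_of_mem hv' hW
  refine ⟨(d - u s / w s * e) / w s, ?_, div_mem (sub_mem h2 (mul_mem (div_mem hv hv' hW) h4)) hv' hW⟩
  have e2 : (d - u s / w s * e) / w s = (d * w s - u s * e) / w s ^ 2 := by
    field_simp
  rw [e2]
  exact h1.div h3 hpos.ne'

theorem Dv.log {u : ℝ → ℝ} {s : ℝ} {V A : I} (hv : V.Mem (u s)) (hV : 0 < V.lo) (hu : Dv u s A) :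
    Dv (fun t => Real.log (u t)) s (IA.div A V) := by
  obtain ⟨d, h1, h2⟩ := hu
  have hpos : 0 < u s := pos_of_mem hv hV
  exact ⟨d / u s, h1.log hpos.ne', div_mem h2 hv hV⟩

theorem Dv.exp {u : ℝ → ℝ} {s : ℝ} {V A : I} (hv : V.Mem (u s)) (hu : Dv u s A) :
    Dv (fun t => Real.exp (u t)) s (IA.mul (IA.exp V) A) := by
  obtain ⟨d, h1, h2⟩ := hu
  exact ⟨Real.exp (u s) * d, h1.exp, mul_mem (exp_mem hv) h2⟩

/-- correctness of a quadruple at a point -/
structure Good (f : D) (e : E) (x y z : ℝ) : Prop where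
  v : f.v.Mem (e.ev x y z)
  a : Dv (fun s => e.ev s y z) x f.a
  b : Dv (fun s => e.ev x s z) y f.b
  c : Dv (fun s => e.ev x y s) z f.c

theorem ad_sound {X Y Z : I} {x y z : ℝ} (hx : X.Mem x) (hy : Y.Mem y) (hz : Z.Mem z) :
    ∀ (e : E) (f : D), ad X Y Z e = some f → Good f e x y z := by
  intro e
  induction e with
  | cst p q =>
    intro f h
    cases hq : Nat.ble 1 q
    · simp [ad, hq] at h
    · simp only [ad, hq, cond_true, Option.some.injEq] at h
      rw [← h]
      exact ⟨cst_mem p (by rwa [Nat.ble_eq] at hq), Dv.cst, Dv.cst, Dv.cst⟩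
  | x0 =>
    intro f h; simp only [ad, Option.some.injEq] at h; rw [← h]
    exact ⟨hx, Dv.id, Dv.cst, Dv.cst⟩
  | x1 =>
    intro f h; simp only [ad, Option.some.injEq] at h; rw [← h]
    exact ⟨hy, Dv.cst, Dv.id, Dv.cst⟩
  | x2 =>
    intro f h; simp only [ad, Option.some.injEq] at h; rw [← h]
    exact ⟨hz, Dv.cst, Dv.cst, Dv.id⟩
  | add a b iha ihb =>
    intro f h
    simp only [ad] at h
    split at h
    · rename_i u w hu hw
      simp only [Option.some.injEq] at h
      have h1 := iha _ hu
      have h2 := ihb _ hw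
      rw [← h]
      exact ⟨add_mem h1.v h2.v, h1.a.add h2.a, h1.b.add h2.b, h1.c.add h2.c⟩
    · exact absurd h (by simp)
  | sub a b iha ihb =>
    intro f h
    simp only [ad] at h
    split at h
    · rename_i u w hu hw
      simp only [Option.some.injEq] at h
      have h1 := iha _ hu
      have h2 := ihb _ hw
      rw [← h]
      exact ⟨sub_mem h1.v h2.v, h1.a.sub h2.a, h1.b.sub h2.b, h1.c.sub h2.c⟩
    · exact absurd h (by simp)
  | mul a b iha ihb =>
    intro f h
    simp only [ad] at h
    split at h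
    · rename_i u w hu hw
      simp only [Option.some.injEq] at h
      have h1 := iha _ hu
      have h2 := ihb _ hw
      rw [← h]
      exact ⟨mul_mem h1.v h2.v, Dv.mul h1.v h2.v h1.a h2.a, Dv.mul h1.v h2.v h1.b h2.b,
        Dv.mul h1.v h2.v h1.c h2.c⟩
    · exact absurd h (by simp)
  | div a b iha ihb =>
    intro f h
    simp only [ad] at h
    split at h
    · rename_i u w hu hw
      cases hp : posI w.v
      · simp [hp] at h
      · simp only [hp, cond_true, Option.some.injEq] at h
        have h1 := iha _ hu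
        have h2 := ihb _ hw
        have hp' := posI_pos hp
        rw [← h]
        exact ⟨div_mem h1.v h2.v hp', Dv.div h1.v h2.v hp' h1.a h2.a, Dv.div h1.v h2.v hp' h1.b h2.b,
          Dv.div h1.v h2.v hp' h1.c h2.c⟩
    · exact absurd h (by simp)
  | log a iha =>
    intro f h
    simp only [ad] at h
    split at h
    · rename_i u hu
      cases hp : posI u.v
      · simp [hp] at h
      · simp only [hp, cond_true, Option.some.injEq] at h
        have h1 := iha _ hu
        have hp' := posI_pos hp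
        rw [← h]
        exact ⟨log_mem h1.v hp', Dv.log h1.v hp' h1.a, Dv.log h1.v hp' h1.b, Dv.log h1.v hp' h1.c⟩
    · exact absurd h (by simp)
  | exp a iha =>
    intro f h
    simp only [ad] at h
    split at h
    · rename_i u hu
      simp only [Option.some.injEq] at h
      have h1 := iha _ hu
      rw [← h]
      exact ⟨exp_mem h1.v, Dv.exp h1.v h1.a, Dv.exp h1.v h1.b, Dv.exp h1.v h1.c⟩
    · exact absurd h (by simp)

/-- the middle of an interval -/
def mid (a : I) : ℤ := shr1 (Int.add a.lo a.hi)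
where
  /-- floor of `z / 2` -/
  shr1 (z : ℤ) : ℤ :=
    match z with
    | Int.ofNat n => Int.ofNat (Nat.shiftRight n 1)
    | Int.negSucc n => Int.negSucc (Nat.shiftRight n 1)

theorem shr1_eq (z : ℤ) : mid.shr1 z = z / 2 := by
  cases z with
  | ofNat n =>
    simp only [mid.shr1, Int.ofNat_eq_natCast]
    have : Nat.shiftRight n 1 = n / 2 := by
      have := Nat.shiftRight_eq_div_pow n 1
      simpa using this
    rw [this]; norm_cast
  | negSucc n =>
    simp only [mid.shr1]
    have : Nat.shiftRight n 1 = n / 2 := by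
      have := Nat.shiftRight_eq_div_pow n 1
      simpa using this
    rw [this]
    rw [Int.negSucc_ediv _ (by norm_num)]
    rw [Int.negSucc_eq]
    norm_cast

theorem mid_eq (a : I) : mid a = (a.lo + a.hi) / 2 := shr1_eq _

theorem mid_mem {a : I} (h : a.lo ≤ a.hi) : a.lo ≤ mid a ∧ mid a ≤ a.hi := by
  rw [mid_eq]; omega

def pt (z : ℤ) : I := ⟨z, z⟩

theorem pt_mem (z : ℤ) : (pt z).Mem ((z : ℝ) / 1099511627776) := by
  constructor <;> simp [pt]

theorem mem_le {a : I} {x : ℝ} (h : a.Mem x) : a.lo ≤ a.hi := by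
  have := h.1.trans h.2
  exact_mod_cast this

theorem mid_mem' {a : I} {x : ℝ} (h : a.Mem x) : a.Mem ((mid a : ℝ) / 1099511627776) := by
  have h1 := mid_mem (mem_le h)
  constructor
  · rw [div_mul_cancel₀ _ (by norm_num)]; exact_mod_cast h1.1
  · rw [div_mul_cancel₀ _ (by norm_num)]; exact_mod_cast h1.2

/-- one dimensional mean value step -/
theorem mvt_step {u : ℝ → ℝ} {x c : ℝ} {X A : I} (hx : X.Mem x) (hc : X.Mem c)
    (hd : ∀ s, X.Mem s → Dv u s A) :
    ∃ d, A.Mem d ∧ u x = u c + d * (x - c) := by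
  have hconv : ∀ s a b, X.Mem a → X.Mem b → a ≤ s → s ≤ b → X.Mem s := by
    intro s a b ha hb h1 h2
    constructor
    · refine ha.1.trans ?_
      exact mul_le_mul_of_nonneg_right h1 (by norm_num)
    · refine le_trans ?_ hb.2
      exact mul_le_mul_of_nonneg_right h2 (by norm_num)
  have key : ∀ a b, X.Mem a → X.Mem b → a < b → ∃ d, A.Mem d ∧ u b = u a + d * (b - a) := by
    intro a b ha hb hab
    have hD : ∀ s, s ∈ Set.Icc a b → ∃ d, HasDerivAt u d s ∧ A.Mem d := by
      intro s hs
      exact hd s (hconv s a b ha hb hs.1 hs.2)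
    choose! g hg using hD
    have hcont : ContinuousOn u (Set.Icc a b) := fun s hs => ((hg s hs).1.continuousAt).continuousWithinAt
    obtain ⟨ξ, hξ, hs⟩ := exists_hasDerivAt_eq_slope u g hab hcont
      (fun s hs => (hg s ⟨hs.1.le, hs.2.le⟩).1)
    refine ⟨g ξ, (hg ξ ⟨hξ.1.le, hξ.2.le⟩).2, ?_⟩
    rw [hs]
    have : b - a ≠ 0 := (sub_pos.2 hab).ne'
    field_simp
    ring
  rcases lt_trichotomy x c with h | h | h
  · obtain ⟨d, h1, h2⟩ := key x c hx hc h
    exact ⟨d, h1, by rw [h2]; ring⟩
  · obtain ⟨d, _, h2⟩ := hd x hx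
    exact ⟨d, h2, by rw [h]; ring⟩
  · obtain ⟨d, h1, h2⟩ := key c x hc hx h
    exact ⟨d, h1, h2⟩

/-- upper end of the centered form is `≤ 0` -/
def leD (e : E) (X Y Z : I) : Bool :=
  match ad X Y Z e, vl (pt (mid X)) (pt (mid Y)) (pt (mid Z)) e with
  | some f, some g =>
    ile (Int.add (Int.add g.hi (mul f.a (sub X (pt (mid X)))).hi)
      (Int.add (mul f.b (sub Y (pt (mid Y)))).hi (mul f.c (sub Z (pt (mid Z)))).hi)) 0
  | _, _ => false

theorem leD_sound {e : E} {X Y Z : I} {x y z : ℝ} (h : leD e X Y Z = true)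
    (hx : X.Mem x) (hy : Y.Mem y) (hz : Z.Mem z) : e.ev x y z ≤ 0 := by
  unfold leD at h
  split at h
  · rename_i f g hf hg
    rw [ile_iff] at h
    have hcx := mid_mem' hx
    have hcy := mid_mem' hy
    have hcz := mid_mem' hz
    have px := pt_mem (mid X)
    have py := pt_mem (mid Y)
    have pz := pt_mem (mid Z)
    generalize (mid X : ℝ) / 1099511627776 = cx at hcx px
    generalize (mid Y : ℝ) / 1099511627776 = cy at hcy py
    generalize (mid Z : ℝ) / 1099511627776 = cz at hcz pz
    have h0 := vl_sound px py pz e g hg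
    obtain ⟨d1, hd1, e1⟩ := mvt_step (u := fun s => e.ev s y z) hx hcx
      (fun s hs => (ad_sound hs hy hz e f hf).a)
    obtain ⟨d2, hd2, e2⟩ := mvt_step (u := fun s => e.ev cx s z) hy hcy
      (fun s hs => (ad_sound hcx hs hz e f hf).b)
    obtain ⟨d3, hd3, e3⟩ := mvt_step (u := fun s => e.ev cx cy s) hz hcz
      (fun s hs => (ad_sound hcx hcy hs e f hf).c)
    have m1 := (mul_mem hd1 (sub_mem hx px)).2
    have m2 := (mul_mem hd2 (sub_mem hy py)).2
    have m3 := (mul_mem hd3 (sub_mem hz pz)).2
    have h0' := h0.2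
    have hR : ((g.hi + (mul f.a (sub X (pt (mid X)))).hi + ((mul f.b (sub Y (pt (mid Y)))).hi
        + (mul f.c (sub Z (pt (mid Z)))).hi) : ℤ) : ℝ) ≤ 0 := Int.cast_nonpos.2 h
    push_cast at hR
    have key : e.ev x y z = e.ev cx cy cz + d1 * (x - cx) + d2 * (y - cy) + d3 * (z - cz) := by
      rw [e1, e2, e3]; ring
    have hfin : e.ev x y z * 1099511627776 ≤ 0 := by
      rw [key]
      have : (e.ev cx cy cz + d1 * (x - cx) + d2 * (y - cy) + d3 * (z - cz)) * 1099511627776
        = e.ev cx cy cz * 1099511627776 + d1 * (x - cx) * 1099511627776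
          + d2 * (y - cy) * 1099511627776 + d3 * (z - cz) * 1099511627776 := by ring
      rw [this]
      linarith
    nlinarith
  · exact absurd h (by simp)

/-- plain interval test for `≤ 0` -/
def leV (e : E) (X Y Z : I) : Bool :=
  match vl X Y Z e with
  | some f => ile f.hi 0
  | none => false

theorem leV_sound {e : E} {X Y Z : I} {x y z : ℝ} (h : leV e X Y Z = true)
    (hx : X.Mem x) (hy : Y.Mem y) (hz : Z.Mem z) : e.ev x y z ≤ 0 := by
  unfold leV at h
  split at h
  · rename_i f hf
    rw [ile_iff] at h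
    have h0 := (vl_sound hx hy hz e f hf).2
    have h1 : (f.hi : ℝ) ≤ 0 := by exact_mod_cast h
    nlinarith
  · exact absurd h (by simp)

/-- certificate: a subdivision tree; a leaf names the expression of the list which is `≤ 0` there
and the method -/
inductive T where
  | v (k : ℕ)
  | d (k : ℕ)
  | s0 (l r : T)
  | s1 (l r : T)
  | s2 (l r : T)

def nth : List E → ℕ → Option E
  | [], _ => none
  | e :: _, 0 => some e
  | _ :: l, k + 1 => nth l k

theorem nth_mem : ∀ (l : List E) (k : ℕ) (e : E), nth l k = some e → e ∈ l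
  | [], k, e, h => by simp [nth] at h
  | e' :: l, 0, e, h => by simp only [nth, Option.some.injEq] at h; simp [h]
  | e' :: l, k + 1, e, h => by
    simp only [nth] at h
    exact List.mem_cons_of_mem _ (nth_mem l k e h)

def chk (es : List E) : T → I → I → I → Bool
  | .v k, X, Y, Z => match nth es k with
    | some e => leV e X Y Z
    | none => false
  | .d k, X, Y, Z => match nth es k with
    | some e => leD e X Y Z
    | none => false
  | .s0 l r, X, Y, Z => cond (chk es l ⟨X.lo, mid X⟩ Y Z) (chk es r ⟨mid X, X.hi⟩ Y Z) false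
  | .s1 l r, X, Y, Z => cond (chk es l X ⟨Y.lo, mid Y⟩ Z) (chk es r X ⟨mid Y, Y.hi⟩ Z) false
  | .s2 l r, X, Y, Z => cond (chk es l X Y ⟨Z.lo, mid Z⟩) (chk es r X Y ⟨mid Z, Z.hi⟩) false

theorem split_mem {X : I} {x : ℝ} (c : ℤ) (hx : X.Mem x) :
    (⟨X.lo, c⟩ : I).Mem x ∨ (⟨c, X.hi⟩ : I).Mem x := by
  rcases le_total (x * 1099511627776) (c : ℝ) with h | h
  · left; exact ⟨hx.1, h⟩
  · right; exact ⟨h, hx.2⟩

theorem cond_and {a b : Bool} (h : cond a b false = true) : a = true ∧ b = true := by
  cases a <;> simp_all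

theorem chk_sound (es : List E) : ∀ (t : T) (X Y Z : I), chk es t X Y Z = true →
    ∀ x y z, X.Mem x → Y.Mem y → Z.Mem z → ∃ e ∈ es, e.ev x y z ≤ 0 := by
  intro t
  induction t with
  | v k =>
    intro X Y Z h x y z hx hy hz
    simp only [chk] at h
    split at h
    · rename_i e he
      exact ⟨e, nth_mem _ _ _ he, leV_sound h hx hy hz⟩
    · exact absurd h (by simp)
  | d k =>
    intro X Y Z h x y z hx hy hz
    simp only [chk] at h
    split at h
    · rename_i e he
      exact ⟨e, nth_mem _ _ _ he, leD_sound h hx hy hz⟩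
    · exact absurd h (by simp)
  | s0 l r ihl ihr =>
    intro X Y Z h x y z hx hy hz
    simp only [chk] at h
    obtain ⟨h1, h2⟩ := cond_and h
    rcases split_mem (mid X) hx with hx | hx
    · exact ihl _ _ _ h1 x y z hx hy hz
    · exact ihr _ _ _ h2 x y z hx hy hz
  | s1 l r ihl ihr =>
    intro X Y Z h x y z hx hy hz
    simp only [chk] at h
    obtain ⟨h1, h2⟩ := cond_and h
    rcases split_mem (mid Y) hy with hy | hy
    · exact ihl _ _ _ h1 x y z hx hy hz
    · exact ihr _ _ _ h2 x y z hx hy hz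
  | s2 l r ihl ihr =>
    intro X Y Z h x y z hx hy hz
    simp only [chk] at h
    obtain ⟨h1, h2⟩ := cond_and h
    rcases split_mem (mid Z) hz with hz | hz
    · exact ihl _ _ _ h1 x y z hx hy hz
    · exact ihr _ _ _ h2 x y z hx hy hz

end IA
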