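import Mathlib

/-!
Kernel friendly interval arithmetic in fixed point (40 binary digits).
A natural number or integer `n` stands for the real number `n / 2 ^ 40`.
-/

namespace IA

/-- `2 ^ 40` -/
def MN : ℕ := 1099511627776

/-- an interval with fixed point end points -/
structure I where
  lo : ℤ
  hi : ℤ

/-- the real number `x` lies in the interval `a` -/
def I.Mem (x : ℝ) (a : I) : Prop := (a.lo : ℝ) ≤ x * 1099511627776 ∧ x * 1099511627776 ≤ (a.hi : ℝ)

/-- floor of `z / 2 ^ 40` -/
def shr (z : ℤ) : ℤ :=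
  match z with
  | Int.ofNat n => Int.ofNat (Nat.shiftRight n 40)
  | Int.negSucc n => Int.negSucc (Nat.shiftRight n 40)

/-- floor of `z / d` -/
def fdv (z : ℤ) (d : ℕ) : ℤ :=
  match z with
  | Int.ofNat n => Int.ofNat (Nat.div n d)
  | Int.negSucc n => Int.negSucc (Nat.div n d)

theorem shr_eq (z : ℤ) : shr z = z / 1099511627776 := by
  cases z with
  | ofNat n =>
    simp only [shr, Int.ofNat_eq_natCast]
    have : Nat.shiftRight n 40 = n / 1099511627776 := by
      have := Nat.shiftRight_eq_div_pow n 40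
      simpa using this
    rw [this]; norm_cast
  | negSucc n =>
    simp only [shr]
    have : Nat.shiftRight n 40 = n / 1099511627776 := by
      have := Nat.shiftRight_eq_div_pow n 40
      simpa using this
    rw [this]
    rw [Int.negSucc_ediv _ (by norm_num)]
    rw [Int.negSucc_eq]
    norm_cast

theorem shr_le (z : ℤ) : (shr z : ℝ) * 1099511627776 ≤ z := by
  rw [shr_eq]
  have h := Int.ediv_mul_le z (b := 1099511627776) (by norm_num)
  exact_mod_cast h

theorem lt_shr (z : ℤ) : (z : ℝ) < (shr z + 1) * 1099511627776 := by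
  rw [shr_eq]
  have h := Int.lt_ediv_add_one_mul_self z (b := 1099511627776) (by norm_num)
  exact_mod_cast h

theorem fdv_eq (z : ℤ) (d : ℕ) (hd : 0 < d) : fdv z d = z / d := by
  cases z with
  | ofNat n =>
    simp only [fdv, Int.ofNat_eq_natCast]
    have : Nat.div n d = n / d := rfl
    rw [this]; norm_cast
  | negSucc n =>
    simp only [fdv]
    have : Nat.div n d = n / d := rfl
    rw [this, Int.negSucc_ediv _ (by exact_mod_cast hd), Int.negSucc_eq]
    norm_cast

theorem fdv_le (z : ℤ) (d : ℕ) (hd : 0 < d) : (fdv z d : ℝ) * d ≤ z := by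
  rw [fdv_eq z d hd]
  have h := Int.ediv_mul_le z (b := (d : ℤ)) (by exact_mod_cast hd.ne')
  exact_mod_cast h

theorem lt_fdv (z : ℤ) (d : ℕ) (hd : 0 < d) : (z : ℝ) < (fdv z d + 1) * d := by
  rw [fdv_eq z d hd]
  have h := Int.lt_ediv_add_one_mul_self z (b := (d : ℤ)) (by exact_mod_cast hd)
  exact_mod_cast h

def add (a b : I) : I := ⟨Int.add a.lo b.lo, Int.add a.hi b.hi⟩
def sub (a b : I) : I := ⟨Int.sub a.lo b.hi, Int.sub a.hi b.lo⟩
def neg (a : I) : I := ⟨Int.neg a.hi, Int.neg a.lo⟩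

theorem add_mem {x y : ℝ} {a b : I} (hx : a.Mem x) (hy : b.Mem y) : (add a b).Mem (x + y) := by
  obtain ⟨h1, h2⟩ := hx
  obtain ⟨h3, h4⟩ := hy
  have e1 : (add a b).lo = a.lo + b.lo := rfl
  have e2 : (add a b).hi = a.hi + b.hi := rfl
  constructor
  · rw [e1]; push_cast; linarith
  · rw [e2]; push_cast; linarith

theorem sub_mem {x y : ℝ} {a b : I} (hx : a.Mem x) (hy : b.Mem y) : (sub a b).Mem (x - y) := by
  obtain ⟨h1, h2⟩ := hx
  obtain ⟨h3, h4⟩ := hy
  have e1 : (sub a b).lo = a.lo - b.hi := rfl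
  have e2 : (sub a b).hi = a.hi - b.lo := rfl
  constructor
  · rw [e1]; push_cast; linarith
  · rw [e2]; push_cast; linarith

theorem neg_mem {x : ℝ} {a : I} (hx : a.Mem x) : (neg a).Mem (-x) := by
  obtain ⟨h1, h2⟩ := hx
  have e1 : (neg a).lo = - a.hi := rfl
  have e2 : (neg a).hi = - a.lo := rfl
  constructor
  · rw [e1]; push_cast; linarith
  · rw [e2]; push_cast; linarith

/-- decidable order test which the kernel evaluates fast -/
def ile (a b : ℤ) : Bool :=
  match Int.sub b a with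
  | Int.ofNat _ => true
  | Int.negSucc _ => false

theorem ile_iff (a b : ℤ) : ile a b = true ↔ a ≤ b := by
  unfold ile
  have h : Int.sub b a = b - a := rfl
  rw [h]
  constructor
  · intro h2
    rcases hc : (b - a) with n | n
    · have : (0 : ℤ) ≤ b - a := by rw [hc]; exact Int.natCast_nonneg n
      linarith
    · rw [hc] at h2; simp at h2
  · intro h2
    have h3 : (0 : ℤ) ≤ b - a := by linarith
    rcases hc : (b - a) with n | n
    · rfl
    · rw [hc] at h3; exact absurd h3 (by simp)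

def imin (a b : ℤ) : ℤ := cond (ile a b) a b
def imax (a b : ℤ) : ℤ := cond (ile a b) b a

theorem imin_eq (a b : ℤ) : imin a b = min a b := by
  unfold imin
  cases h : ile a b
  · have : ¬ a ≤ b := by rw [← ile_iff, h]; simp
    simp; omega
  · have : a ≤ b := (ile_iff a b).1 h
    simp; omega

theorem imax_eq (a b : ℤ) : imax a b = max a b := by
  unfold imax
  cases h : ile a b
  · have : ¬ a ≤ b := by rw [← ile_iff, h]; simp
    simp; omega
  · have : a ≤ b := (ile_iff a b).1 h
    simp; omega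

/-- the general product -/
def mulG (a b : I) : I :=
  ⟨shr (imin (imin (Int.mul a.lo b.lo) (Int.mul a.lo b.hi)) (imin (Int.mul a.hi b.lo) (Int.mul a.hi b.hi))),
   Int.add (shr (imax (imax (Int.mul a.lo b.lo) (Int.mul a.lo b.hi)) (imax (Int.mul a.hi b.lo) (Int.mul a.hi b.hi)))) 1⟩

/-- the product, with a short cut when both factors are nonnegative -/
def mul (a b : I) : I :=
  match a.lo, b.lo with
  | Int.ofNat m, Int.ofNat n =>
    ⟨Int.ofNat (Nat.shiftRight (Nat.mul m n) 40), Int.add (shr (Int.mul a.hi b.hi)) 1⟩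
  | _, _ => mulG a b

theorem mulG_mem {x y : ℝ} {a b : I} (hx : a.Mem x) (hy : b.Mem y) : (mulG a b).Mem (x * y) := by
  obtain ⟨h1, h2⟩ := hx
  obtain ⟨h3, h4⟩ := hy
  set M : ℝ := 1099511627776 with hM
  have hMpos : (0 : ℝ) < M := by norm_num [hM]
  have e1 : (mulG a b).lo = shr (min (min (a.lo * b.lo) (a.lo * b.hi)) (min (a.hi * b.lo) (a.hi * b.hi))) := by
    simp only [mulG, imin_eq]; rfl
  have e2 : (mulG a b).hi = shr (max (max (a.lo * b.lo) (a.lo * b.hi)) (max (a.hi * b.lo) (a.hi * b.hi))) + 1 := by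
    simp only [mulG, imax_eq]; rfl
  set X := x * M
  set Y := y * M
  have hXY : x * y * M * M = X * Y := by simp only [X, Y]; ring
  have hlow : ((min (min (a.lo * b.lo) (a.lo * b.hi)) (min (a.hi * b.lo) (a.hi * b.hi)) : ℤ) : ℝ) ≤ X * Y := by
    push_cast
    rcases le_total 0 Y with hY | hY
    · rcases le_total 0 (a.lo : ℝ) with ha | ha
      · have : (a.lo : ℝ) * b.lo ≤ X * Y := by
          calc (a.lo : ℝ) * b.lo ≤ a.lo * Y := by exact mul_le_mul_of_nonneg_left h3 ha
            _ ≤ X * Y := mul_le_mul_of_nonneg_right h1 hY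
        exact le_trans (le_trans (min_le_left _ _) (min_le_left _ _)) this
      · have : (a.lo : ℝ) * b.hi ≤ X * Y := by
          calc (a.lo : ℝ) * b.hi ≤ a.lo * Y := by exact mul_le_mul_of_nonpos_left h4 ha
            _ ≤ X * Y := mul_le_mul_of_nonneg_right h1 hY
        exact le_trans (le_trans (min_le_left _ _) (min_le_right _ _)) this
    · rcases le_total 0 (a.hi : ℝ) with ha | ha
      · have : (a.hi : ℝ) * b.lo ≤ X * Y := by
          calc (a.hi : ℝ) * b.lo ≤ a.hi * Y := by exact mul_le_mul_of_nonneg_left h3 ha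
            _ ≤ X * Y := mul_le_mul_of_nonpos_right h2 hY
        exact le_trans (le_trans (min_le_right _ _) (min_le_left _ _)) this
      · have : (a.hi : ℝ) * b.hi ≤ X * Y := by
          calc (a.hi : ℝ) * b.hi ≤ a.hi * Y := by exact mul_le_mul_of_nonpos_left h4 ha
            _ ≤ X * Y := mul_le_mul_of_nonpos_right h2 hY
        exact le_trans (le_trans (min_le_right _ _) (min_le_right _ _)) this
  have hup : X * Y ≤ ((max (max (a.lo * b.lo) (a.lo * b.hi)) (max (a.hi * b.lo) (a.hi * b.hi)) : ℤ) : ℝ) := by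
    push_cast
    rcases le_total 0 Y with hY | hY
    · rcases le_total 0 (a.hi : ℝ) with ha | ha
      · have : X * Y ≤ (a.hi : ℝ) * b.hi := by
          calc X * Y ≤ a.hi * Y := mul_le_mul_of_nonneg_right h2 hY
            _ ≤ a.hi * b.hi := mul_le_mul_of_nonneg_left h4 ha
        exact le_trans this (le_trans (le_max_right _ _) (le_max_right _ _))
      · have : X * Y ≤ (a.hi : ℝ) * b.lo := by
          calc X * Y ≤ a.hi * Y := mul_le_mul_of_nonneg_right h2 hY
            _ ≤ a.hi * b.lo := mul_le_mul_of_nonpos_left h3 ha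
        exact le_trans this (le_trans (le_max_left _ _) (le_max_right _ _))
    · rcases le_total 0 (a.lo : ℝ) with ha | ha
      · have : X * Y ≤ (a.lo : ℝ) * b.hi := by
          calc X * Y ≤ a.lo * Y := mul_le_mul_of_nonpos_right h1 hY
            _ ≤ a.lo * b.hi := mul_le_mul_of_nonneg_left h4 ha
        exact le_trans this (le_trans (le_max_right _ _) (le_max_left _ _))
      · have : X * Y ≤ (a.lo : ℝ) * b.lo := by
          calc X * Y ≤ a.lo * Y := mul_le_mul_of_nonpos_right h1 hY
            _ ≤ a.lo * b.lo := mul_le_mul_of_nonpos_left h3 ha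
        exact le_trans this (le_trans (le_max_left _ _) (le_max_left _ _))
  constructor
  · rw [e1]
    have := shr_le (min (min (a.lo * b.lo) (a.lo * b.hi)) (min (a.hi * b.lo) (a.hi * b.hi)))
    have h5 := this.trans hlow
    rw [← hXY] at h5
    exact le_of_mul_le_mul_right h5 hMpos
  · rw [e2]
    have := lt_shr (max (max (a.lo * b.lo) (a.lo * b.hi)) (max (a.hi * b.lo) (a.hi * b.hi)))
    have h5 := hup.trans this.le
    rw [← hXY] at h5
    push_cast
    exact le_of_mul_le_mul_right h5 hMpos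

theorem mul_mem {x y : ℝ} {a b : I} (hx : a.Mem x) (hy : b.Mem y) : (mul a b).Mem (x * y) := by
  unfold mul
  split
  · rename_i m n ha hb
    obtain ⟨h1, h2⟩ := hx
    obtain ⟨h3, h4⟩ := hy
    rw [ha] at h1
    rw [hb] at h3
    set M : ℝ := 1099511627776 with hM
    have hMpos : (0 : ℝ) < M := by norm_num [hM]
    set X := x * M
    set Y := y * M
    have hXY : x * y * M * M = X * Y := by simp only [X, Y]; ring
    have hm : (0 : ℝ) ≤ (m : ℝ) := Nat.cast_nonneg m
    have hn : (0 : ℝ) ≤ (n : ℝ) := Nat.cast_nonneg n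
    have h1' : (m : ℝ) ≤ X := by simpa using h1
    have h3' : (n : ℝ) ≤ Y := by simpa using h3
    have hX : 0 ≤ X := hm.trans h1'
    have hY : 0 ≤ Y := hn.trans h3'
    constructor
    · have e : (Int.ofNat (Nat.shiftRight (Nat.mul m n) 40)) = shr (Int.ofNat (m * n)) := rfl
      show ((Int.ofNat (Nat.shiftRight (Nat.mul m n) 40) : ℤ) : ℝ) ≤ x * y * M
      rw [e]
      have h5 := shr_le (Int.ofNat (m * n))
      have h6 : ((Int.ofNat (m * n) : ℤ) : ℝ) ≤ X * Y := by
        have e3 : ((Int.ofNat (m * n) : ℤ) : ℝ) = (m : ℝ) * n := by simp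
        rw [e3]
        exact mul_le_mul h1' h3' hn hX
      have h7 := h5.trans h6
      rw [← hXY] at h7
      exact le_of_mul_le_mul_right h7 hMpos
    · show x * y * M ≤ ((Int.add (shr (Int.mul a.hi b.hi)) 1 : ℤ) : ℝ)
      have e : Int.add (shr (Int.mul a.hi b.hi)) 1 = shr (a.hi * b.hi) + 1 := rfl
      rw [e]
      have h5 := lt_shr (a.hi * b.hi)
      have h6 : X * Y ≤ ((a.hi * b.hi : ℤ) : ℝ) := by
        push_cast
        exact mul_le_mul h2 h4 hY (hX.trans h2)
      have h7 := h6.trans h5.le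
      rw [← hXY] at h7
      push_cast
      exact le_of_mul_le_mul_right h7 hMpos
  · exact mulG_mem hx hy

/-- division by an interval with positive lower end point -/
def div (a b : I) : I :=
  match b.lo, b.hi with
  | Int.ofNat m, Int.ofNat n =>
    ⟨fdv (Int.mul a.lo (Int.ofNat 1099511627776)) (cond (ile 0 a.lo) n m),
     Int.add (fdv (Int.mul a.hi (Int.ofNat 1099511627776)) (cond (ile 0 a.hi) m n)) 1⟩
  | _, _ => ⟨0, 0⟩

theorem div_lo_aux (z : ℤ) (m n : ℕ) (hm : 0 < m) (hn : 0 < n) (X Y : ℝ) (hz : (z : ℝ) ≤ X)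
    (h1 : (m : ℝ) ≤ Y) (h2 : Y ≤ n) :
    (fdv (z * 1099511627776) (cond (ile 0 z) n m) : ℝ) * Y ≤ X * 1099511627776 := by
  have hmR : (0 : ℝ) < m := by exact_mod_cast hm
  have hnR : (0 : ℝ) < n := by exact_mod_cast hn
  have hY : 0 < Y := hmR.trans_le h1
  cases hc : ile 0 z
  · have hz0 : z < 0 := by
      have : ¬ (0 : ℤ) ≤ z := by rw [← ile_iff, hc]; simp
      omega
    have hz0' : (z : ℝ) < 0 := by exact_mod_cast hz0
    show (fdv (z * 1099511627776) m : ℝ) * Y ≤ X * 1099511627776
    have hd := fdv_le (z * 1099511627776) m hm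
    push_cast at hd
    rcases le_total (fdv (z * 1099511627776) m : ℝ) 0 with hq | hq
    · have := mul_le_mul_of_nonpos_left h1 hq
      nlinarith
    · have := mul_nonneg hq hmR.le
      nlinarith
  · have hz0 : 0 ≤ z := (ile_iff 0 z).1 hc
    have hz0' : (0 : ℝ) ≤ z := by exact_mod_cast hz0
    show (fdv (z * 1099511627776) n : ℝ) * Y ≤ X * 1099511627776
    have hd := fdv_le (z * 1099511627776) n hn
    push_cast at hd
    rcases le_total (fdv (z * 1099511627776) n : ℝ) 0 with hq | hq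
    · have := mul_nonpos_of_nonpos_of_nonneg hq hY.le
      nlinarith
    · have := mul_le_mul_of_nonneg_left h2 hq
      nlinarith

theorem div_hi_aux (z : ℤ) (m n : ℕ) (hm : 0 < m) (hn : 0 < n) (X Y : ℝ) (hz : X ≤ (z : ℝ))
    (h1 : (m : ℝ) ≤ Y) (h2 : Y ≤ n) :
    X * 1099511627776 ≤ ((fdv (z * 1099511627776) (cond (ile 0 z) m n) : ℝ) + 1) * Y := by
  have hmR : (0 : ℝ) < m := by exact_mod_cast hm
  have hnR : (0 : ℝ) < n := by exact_mod_cast hn
  have hY : 0 < Y := hmR.trans_le h1
  cases hc : ile 0 z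
  · have hz0 : z < 0 := by
      have : ¬ (0 : ℤ) ≤ z := by rw [← ile_iff, hc]; simp
      omega
    have hz0' : (z : ℝ) < 0 := by exact_mod_cast hz0
    show X * 1099511627776 ≤ ((fdv (z * 1099511627776) n : ℝ) + 1) * Y
    have hd := lt_fdv (z * 1099511627776) n hn
    push_cast at hd
    rcases le_total ((fdv (z * 1099511627776) n : ℝ) + 1) 0 with hq | hq
    · have := mul_le_mul_of_nonpos_left h2 hq
      nlinarith
    · have := mul_nonneg hq hY.le
      nlinarith
  · have hz0 : 0 ≤ z := (ile_iff 0 z).1 hc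
    have hz0' : (0 : ℝ) ≤ z := by exact_mod_cast hz0
    show X * 1099511627776 ≤ ((fdv (z * 1099511627776) m : ℝ) + 1) * Y
    have hd := lt_fdv (z * 1099511627776) m hm
    push_cast at hd
    rcases le_total ((fdv (z * 1099511627776) m : ℝ) + 1) 0 with hq | hq
    · have := mul_nonpos_of_nonpos_of_nonneg hq hmR.le
      nlinarith
    · have := mul_le_mul_of_nonneg_left h1 hq
      nlinarith

theorem div_mem {x y : ℝ} {a b : I} (hx : a.Mem x) (hy : b.Mem y) (hb : 0 < b.lo) :
    (div a b).Mem (x / y) := by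
  obtain ⟨h1, h2⟩ := hx
  obtain ⟨h3, h4⟩ := hy
  have hMpos : (0 : ℝ) < 1099511627776 := by norm_num
  have hbl : (0 : ℝ) < (b.lo : ℝ) := by exact_mod_cast hb
  have hyM : 0 < y * 1099511627776 := hbl.trans_le h3
  have hbh : (0 : ℝ) < (b.hi : ℝ) := hyM.trans_le h4
  have hbh' : 0 < b.hi := by exact_mod_cast hbh
  obtain ⟨m, hm⟩ : ∃ m : ℕ, b.lo = Int.ofNat m := ⟨b.lo.toNat, by simp; omega⟩
  obtain ⟨n, hn⟩ : ∃ n : ℕ, b.hi = Int.ofNat n := ⟨b.hi.toNat, by simp; omega⟩
  have hm0 : 0 < m := by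
    have := hb; rw [hm] at this; simpa using this
  have hn0 : 0 < n := by
    have := hbh'; rw [hn] at this; simpa using this
  have hm1 : (m : ℝ) ≤ y * 1099511627776 := by rw [hm] at h3; simpa using h3
  have hn1 : y * 1099511627776 ≤ (n : ℝ) := by rw [hn] at h4; simpa using h4
  have hy0 : y ≠ 0 := by
    intro h; rw [h] at hyM; simp at hyM
  have key : x / y * 1099511627776 = (x * 1099511627776) * 1099511627776 / (y * 1099511627776) := by
    field_simp
  have e : div a b = ⟨fdv (a.lo * 1099511627776) (cond (ile 0 a.lo) n m),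
     fdv (a.hi * 1099511627776) (cond (ile 0 a.hi) m n) + 1⟩ := by
    unfold div; rw [hm, hn]; rfl
  rw [e]
  constructor
  · show (fdv (a.lo * 1099511627776) (cond (ile 0 a.lo) n m) : ℝ) ≤ x / y * 1099511627776
    rw [key, le_div_iff₀ hyM]
    exact div_lo_aux a.lo m n hm0 hn0 _ _ h1 hm1 hn1
  · show x / y * 1099511627776 ≤ ((fdv (a.hi * 1099511627776) (cond (ile 0 a.hi) m n) + 1 : ℤ) : ℝ)
    rw [key, div_le_iff₀ hyM]
    push_cast
    exact div_hi_aux a.hi m n hm0 hn0 _ _ h2 hm1 hn1

end IA
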