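import Pool.Agent.Lib.Interval.Log

/-!
Kernel friendly enclosure of the exponential function (fixed point, 40 binary digits).
-/

namespace IA

def seL (i r p : ℕ) : ℕ := Nat.add 1099511627776 (Nat.div (Nat.shiftRight (Nat.mul r p) 40) i)
def seU (i r p : ℕ) : ℕ :=
  Nat.add 1099511627776 (Nat.add (Nat.div (Nat.add (Nat.shiftRight (Nat.mul r p) 40) 1) i) 1)

/-- lower bound of `2^40 exp (r / 2^40)` -/
def exL (r : ℕ) : ℕ :=
  seL 1 r (seL 2 r (seL 3 r (seL 4 r (seL 5 r (seL 6 r (seL 7 r (seL 8 r (seL 9 r (seL 10 r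
    (seL 11 r 1099511627776))))))))))
/-- upper bound of `2^40 exp (r / 2^40)`, `r / 2^40 ≤ 7 / 10` -/
def exU (r : ℕ) : ℕ :=
  Nat.add (seU 1 r (seU 2 r (seU 3 r (seU 4 r (seU 5 r (seU 6 r (seU 7 r (seU 8 r (seU 9 r (seU 10 r
    (seU 11 r 1099511627776))))))))))) 35

def expLo : ℤ → ℕ
  | Int.ofNat n => Nat.shiftLeft (exL (Nat.mod n 762123385050)) (Nat.div n 762123385050)
  | Int.negSucc n =>
    Nat.shiftRight (exL (Nat.sub 762123384498 (Nat.mod n 762123384499))) (Nat.add (Nat.div n 762123384499) 1)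
def expHi : ℤ → ℕ
  | Int.ofNat n => Nat.shiftLeft (exU (Nat.mod n 762123384499)) (Nat.div n 762123384499)
  | Int.negSucc n =>
    Nat.add (Nat.shiftRight (exU (Nat.sub 762123385049 (Nat.mod n 762123385050)))
      (Nat.add (Nat.div n 762123385050) 1)) 1

/-- enclosure of the exponential of an interval -/
def exp (a : I) : I := ⟨Int.ofNat (expLo a.lo), Int.ofNat (expHi a.hi)⟩

theorem seL_le {i r p : ℕ} {R P : ℝ} (hi : 0 < i) (hr : (r : ℝ) ≤ (1099511627776 : ℝ) * R) (hp : (p : ℝ) ≤ (1099511627776 : ℝ) * P) :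
    (seL i r p : ℝ) ≤ (1099511627776 : ℝ) * (1 + R * P / i) := by
  have h := shd_mul_le hr hp
  have hiR : (0 : ℝ) < i := by exact_mod_cast hi
  have h2 : ((Nat.div (Nat.shiftRight (Nat.mul r p) 40) i : ℕ) : ℝ) * i ≤
      ((shd (Nat.mul r p) : ℕ) : ℝ) := by
    have := Nat.div_mul_le_self (Nat.shiftRight (Nat.mul r p) 40) i
    exact_mod_cast this
  have h3 : ((Nat.div (Nat.shiftRight (Nat.mul r p) 40) i : ℕ) : ℝ) ≤ (1099511627776 : ℝ) * (R * P / i) := by
    rw [← mul_div_assoc, le_div_iff₀ hiR]; exact h2.trans h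
  show ((1099511627776 + Nat.div (Nat.shiftRight (Nat.mul r p) 40) i : ℕ) : ℝ) ≤ _
  generalize Nat.div (Nat.shiftRight (Nat.mul r p) 40) i = A at h3
  push_cast
  linarith

theorem le_seU {i r p : ℕ} {R P : ℝ} (hi : 0 < i) (hr : (1099511627776 : ℝ) * R ≤ (r : ℝ)) (hp : (1099511627776 : ℝ) * P ≤ (p : ℝ))
    (hP : 0 ≤ P) : (1099511627776 : ℝ) * (1 + R * P / i) ≤ (seU i r p : ℝ) := by
  have h := le_shu_mul hr hp hP
  have hiR : (0 : ℝ) < i := by exact_mod_cast hi
  have h2 : ((shu (Nat.mul r p) : ℕ) : ℝ) ≤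
      (((Nat.div (Nat.add (Nat.shiftRight (Nat.mul r p) 40) 1) i : ℕ) : ℝ) + 1) * i := by
    have := (Nat.lt_div_mul_add (a := Nat.shiftRight (Nat.mul r p) 40 + 1) (b := i) hi).le
    have h2 : Nat.shiftRight (Nat.mul r p) 40 + 1 ≤
        ((Nat.shiftRight (Nat.mul r p) 40 + 1) / i + 1) * i := by rw [add_mul, one_mul]; exact this
    exact_mod_cast h2
  have h3 : (1099511627776 : ℝ) * (R * P / i) ≤
      ((Nat.div (Nat.add (Nat.shiftRight (Nat.mul r p) 40) 1) i : ℕ) : ℝ) + 1 := by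
    rw [← mul_div_assoc, div_le_iff₀ hiR]; exact h.trans h2
  show _ ≤ ((1099511627776 +
    (Nat.div (Nat.add (Nat.shiftRight (Nat.mul r p) 40) 1) i + 1) : ℕ) : ℝ)
  generalize Nat.div (Nat.add (Nat.shiftRight (Nat.mul r p) 40) 1) i = A at h3
  push_cast
  linarith

/-- the exact Horner form of the Taylor polynomial -/
noncomputable def teR (R : ℝ) : ℝ :=
  1 + R * (1 + R * (1 + R * (1 + R * (1 + R * (1 + R * (1 + R * (1 + R * (1 + R * (1 + R * (1 + R * 1
    / ((11 : ℕ) : ℝ)) / ((10 : ℕ) : ℝ)) / ((9 : ℕ) : ℝ)) / ((8 : ℕ) : ℝ)) / ((7 : ℕ) : ℝ))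
    / ((6 : ℕ) : ℝ)) / ((5 : ℕ) : ℝ)) / ((4 : ℕ) : ℝ)) / ((3 : ℕ) : ℝ)) / ((2 : ℕ) : ℝ))
    / ((1 : ℕ) : ℝ)

theorem teR_eq (R : ℝ) : teR R = ∑ i ∈ Finset.range 12, R ^ i / (i.factorial : ℝ) := by
  simp only [Finset.sum_range_succ, Finset.sum_range_zero, teR, Nat.factorial]
  push_cast
  ring

theorem exL_le {r : ℕ} {R : ℝ} (hr : (r : ℝ) ≤ (1099511627776 : ℝ) * R) : (exL r : ℝ) ≤ (1099511627776 : ℝ) * teR R := by
  unfold exL teR
  refine seL_le (by norm_num) hr (seL_le (by norm_num) hr (seL_le (by norm_num) hr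
    (seL_le (by norm_num) hr (seL_le (by norm_num) hr (seL_le (by norm_num) hr
    (seL_le (by norm_num) hr (seL_le (by norm_num) hr (seL_le (by norm_num) hr
    (seL_le (by norm_num) hr (seL_le (by norm_num) hr (by norm_num)))))))))))

theorem le_exU {r : ℕ} {R : ℝ} (hr : (1099511627776 : ℝ) * R ≤ (r : ℝ)) (hR : 0 ≤ R) :
    (1099511627776 : ℝ) * teR R + 35 ≤ (exU r : ℝ) := by
  have key : (1099511627776 : ℝ) * teR R ≤ ((seU 1 r (seU 2 r (seU 3 r (seU 4 r (seU 5 r (seU 6 r (seU 7 r (seU 8 r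
      (seU 9 r (seU 10 r (seU 11 r 1099511627776)))))))))) : ℕ) : ℝ) := by
    unfold teR
    refine le_seU (by norm_num) hr (le_seU (by norm_num) hr (le_seU (by norm_num) hr
      (le_seU (by norm_num) hr (le_seU (by norm_num) hr (le_seU (by norm_num) hr
      (le_seU (by norm_num) hr (le_seU (by norm_num) hr (le_seU (by norm_num) hr
      (le_seU (by norm_num) hr (le_seU (by norm_num) hr (by norm_num) (by norm_num)) ?_) ?_) ?_) ?_)
      ?_) ?_) ?_) ?_) ?_) ?_
    all_goals positivity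
  unfold exU
  rw [show ∀ a : ℕ, Nat.add a 35 = a + 35 from fun _ => rfl]
  rw [Nat.cast_add]
  have : ((35 : ℕ) : ℝ) = 35 := by norm_num
  linarith

theorem exL_exp {r : ℕ} : (exL r : ℝ) ≤ (1099511627776 : ℝ) * Real.exp (r / (1099511627776 : ℝ)) := by
  have h1 : (r : ℝ) ≤ (1099511627776 : ℝ) * (r / (1099511627776 : ℝ)) := by
    rw [mul_div_cancel₀]; norm_num
  have h := exL_le h1
  have h2 := Real.sum_le_exp_of_nonneg (x := r / (1099511627776 : ℝ)) (by positivity) 12
  rw [← teR_eq] at h2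
  linarith

theorem exU_exp {r : ℕ} (hr : (r : ℝ) / (1099511627776 : ℝ) ≤ 7 / 10) : (1099511627776 : ℝ) * Real.exp (r / (1099511627776 : ℝ)) ≤ (exU r : ℝ) := by
  have h1 : (1099511627776 : ℝ) * (r / (1099511627776 : ℝ)) ≤ (r : ℝ) := by
    rw [mul_div_cancel₀]; norm_num
  have h0 : (0 : ℝ) ≤ r / (1099511627776 : ℝ) := by positivity
  have h := le_exU h1 h0
  have h2 := Real.exp_bound' (x := r / (1099511627776 : ℝ)) h0 (by linarith) (n := 12) (by norm_num)
  rw [← teR_eq] at h2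
  have h3 : ((r : ℝ) / (1099511627776 : ℝ)) ^ 12 ≤ (7 / 10) ^ 12 := pow_le_pow_left₀ h0 hr 12
  have h4 : ((r : ℝ) / (1099511627776 : ℝ)) ^ 12 * ((12 : ℕ) + 1) / ((12 : ℕ).factorial * (12 : ℕ)) ≤
      (7 / 10 : ℝ) ^ 12 * 13 / (479001600 * 12) := by
    have e : ((12 : ℕ).factorial : ℝ) = 479001600 := by
      have : (12 : ℕ).factorial = 479001600 := by decide
      rw [this]; norm_num
    rw [e]
    push_cast
    have : (0 : ℝ) ≤ ((r : ℝ) / (1099511627776 : ℝ)) ^ 12 := by positivity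
    nlinarith
  have h5 : (1099511627776 : ℝ) * ((7 / 10 : ℝ) ^ 12 * 13 / (479001600 * 12)) ≤ 35 := by norm_num
  have h6 : (1099511627776 : ℝ) * Real.exp (r / (1099511627776 : ℝ)) ≤ (1099511627776 : ℝ) * (teR (r / (1099511627776 : ℝ)) + (7 / 10 : ℝ) ^ 12 * 13 / (479001600 * 12)) :=
    mul_le_mul_of_nonneg_left (h2.trans (by linarith)) (by norm_num)
  linarith

theorem exp_lo_le_two : (762123384499 : ℝ) / (1099511627776 : ℝ) ≤ Real.log 2 := by
  have := log2_lo
  rw [div_le_iff₀ (by norm_num)]; linarith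
theorem two_le_exp_hi : Real.log 2 ≤ (762123385050 : ℝ) / (1099511627776 : ℝ) := by
  have := log2_hi
  rw [le_div_iff₀ (by norm_num)]; linarith

theorem two_pow_eq_exp (k : ℕ) : (2 : ℝ) ^ k = Real.exp (k * Real.log 2) := by
  rw [mul_comm, Real.exp_mul, Real.exp_log (by norm_num)]
  norm_cast

theorem expLo_le (n : ℤ) : (expLo n : ℝ) ≤ (1099511627776 : ℝ) * Real.exp (n / (1099511627776 : ℝ)) := by
  cases n with
  | ofNat n =>
    show ((Nat.shiftLeft (exL (n % 762123385050)) (n / 762123385050) : ℕ) : ℝ) ≤ _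
    have hdm := Nat.div_add_mod n 762123385050
    generalize n / 762123385050 = k at hdm ⊢
    generalize n % 762123385050 = r at hdm ⊢
    have hsl : Nat.shiftLeft (exL r) k = exL r * 2 ^ k := Nat.shiftLeft_eq _ _
    rw [hsl]
    have h1 := exL_exp (r := r)
    generalize exL r = A at h1
    have hn : ((Int.ofNat n : ℤ) : ℝ) / (1099511627776 : ℝ) = k * (762123385050 / (1099511627776 : ℝ)) + r / (1099511627776 : ℝ) := by
      rw [← hdm]; simp only [Int.ofNat_eq_natCast, Int.cast_natCast]; push_cast; ring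
    rw [hn, Real.exp_add]
    have h2 : (2 : ℝ) ^ k ≤ Real.exp (k * (762123385050 / (1099511627776 : ℝ))) := by
      rw [two_pow_eq_exp]
      exact Real.exp_le_exp.2 (mul_le_mul_of_nonneg_left two_le_exp_hi (Nat.cast_nonneg k))
    push_cast
    calc (A : ℝ) * 2 ^ k ≤ ((1099511627776 : ℝ) * Real.exp (r / (1099511627776 : ℝ))) * Real.exp (k * (762123385050 / (1099511627776 : ℝ))) :=
          mul_le_mul h1 h2 (by positivity) (by positivity)
      _ = _ := by ring
  | negSucc n =>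
    show ((Nat.shiftRight (exL (762123384498 - n % 762123384499)) (n / 762123384499 + 1) : ℕ) : ℝ) ≤ _
    have hdm := Nat.div_add_mod n 762123384499
    have hlt := Nat.mod_lt n (show 762123384499 > 0 by norm_num)
    generalize n / 762123384499 = k at hdm ⊢
    generalize n % 762123384499 = r at hdm hlt ⊢
    obtain ⟨s, hs⟩ : ∃ s, r + s = 762123384498 := ⟨762123384498 - r, by omega⟩
    have hs2 : 762123384498 - r = s := by omega
    rw [hs2]
    have hsr : Nat.shiftRight (exL s) (k + 1) = exL s / 2 ^ (k + 1) := Nat.shiftRight_eq_div_pow _ _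
    rw [hsr]
    have h1 := exL_exp (r := s)
    generalize exL s = A at h1
    have hn : ((Int.negSucc n : ℤ) : ℝ) / (1099511627776 : ℝ) = -((k + 1 : ℝ) * (762123384499 / (1099511627776 : ℝ))) + s / (1099511627776 : ℝ) := by
      rw [Int.cast_negSucc, ← hdm]
      have : (s : ℝ) = 762123384498 - r := by
        have : ((r + s : ℕ) : ℝ) = 762123384498 := by rw [hs]; norm_num
        push_cast at this; linarith
      rw [this]; push_cast; ring
    rw [hn, Real.exp_add]
    have h2 : ((2 : ℝ) ^ (k + 1))⁻¹ ≤ Real.exp (-((k + 1 : ℝ) * (762123384499 / (1099511627776 : ℝ)))) := by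
      rw [two_pow_eq_exp, ← Real.exp_neg]
      apply Real.exp_le_exp.2
      push_cast
      have := mul_le_mul_of_nonneg_left exp_lo_le_two (show (0 : ℝ) ≤ k + 1 by positivity)
      linarith
    have h3 : ((A / 2 ^ (k + 1) : ℕ) : ℝ) ≤ A * ((2 : ℝ) ^ (k + 1))⁻¹ := by
      rw [← div_eq_mul_inv, le_div_iff₀ (by positivity)]
      have := Nat.div_mul_le_self A (2 ^ (k + 1))
      exact_mod_cast this
    calc ((A / 2 ^ (k + 1) : ℕ) : ℝ) ≤ A * ((2 : ℝ) ^ (k + 1))⁻¹ := h3
      _ ≤ ((1099511627776 : ℝ) * Real.exp (s / (1099511627776 : ℝ))) * Real.exp (-((k + 1 : ℝ) * (762123384499 / (1099511627776 : ℝ)))) :=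
          mul_le_mul h1 h2 (by positivity) (by positivity)
      _ = _ := by ring

theorem le_expHi (n : ℤ) : (1099511627776 : ℝ) * Real.exp (n / (1099511627776 : ℝ)) ≤ (expHi n : ℝ) := by
  cases n with
  | ofNat n =>
    show _ ≤ ((Nat.shiftLeft (exU (n % 762123384499)) (n / 762123384499) : ℕ) : ℝ)
    have hdm := Nat.div_add_mod n 762123384499
    have hlt := Nat.mod_lt n (show 762123384499 > 0 by norm_num)
    generalize n / 762123384499 = k at hdm ⊢
    generalize n % 762123384499 = r at hdm hlt ⊢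
    have hsl : Nat.shiftLeft (exU r) k = exU r * 2 ^ k := Nat.shiftLeft_eq _ _
    rw [hsl]
    have hr : (r : ℝ) / (1099511627776 : ℝ) ≤ 7 / 10 := by
      have : (r : ℝ) < 762123384499 := by exact_mod_cast hlt
      rw [div_le_iff₀ (by norm_num)]; linarith
    have h1 := exU_exp (r := r) hr
    generalize exU r = A at h1
    have hn : ((Int.ofNat n : ℤ) : ℝ) / (1099511627776 : ℝ) = k * (762123384499 / (1099511627776 : ℝ)) + r / (1099511627776 : ℝ) := by
      rw [← hdm]; simp only [Int.ofNat_eq_natCast, Int.cast_natCast]; push_cast; ring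
    rw [hn, Real.exp_add]
    have h2 : Real.exp (k * (762123384499 / (1099511627776 : ℝ))) ≤ (2 : ℝ) ^ k := by
      rw [two_pow_eq_exp]
      exact Real.exp_le_exp.2 (mul_le_mul_of_nonneg_left exp_lo_le_two (Nat.cast_nonneg k))
    push_cast
    calc _ = ((1099511627776 : ℝ) * Real.exp (r / (1099511627776 : ℝ))) * Real.exp (k * (762123384499 / (1099511627776 : ℝ))) := by ring
      _ ≤ (A : ℝ) * 2 ^ k := mul_le_mul h1 h2 (by positivity) (by positivity)
  | negSucc n =>
    show _ ≤ ((Nat.shiftRight (exU (762123385049 - n % 762123385050)) (n / 762123385050 + 1) + 1 : ℕ) : ℝ)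
    have hdm := Nat.div_add_mod n 762123385050
    have hlt := Nat.mod_lt n (show 762123385050 > 0 by norm_num)
    generalize n / 762123385050 = k at hdm ⊢
    generalize n % 762123385050 = r at hdm hlt ⊢
    obtain ⟨s, hs⟩ : ∃ s, r + s = 762123385049 := ⟨762123385049 - r, by omega⟩
    have hs2 : 762123385049 - r = s := by omega
    rw [hs2]
    have hsr : Nat.shiftRight (exU s) (k + 1) = exU s / 2 ^ (k + 1) := Nat.shiftRight_eq_div_pow _ _
    rw [hsr]
    have hs3 : (s : ℝ) / (1099511627776 : ℝ) ≤ 7 / 10 := by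
      have : s ≤ 762123385049 := by omega
      have : (s : ℝ) ≤ 762123385049 := by exact_mod_cast this
      rw [div_le_iff₀ (by norm_num)]; linarith
    have h1 := exU_exp (r := s) hs3
    generalize exU s = A at h1
    have hn : ((Int.negSucc n : ℤ) : ℝ) / (1099511627776 : ℝ) = -((k + 1 : ℝ) * (762123385050 / (1099511627776 : ℝ))) + s / (1099511627776 : ℝ) := by
      rw [Int.cast_negSucc, ← hdm]
      have : (s : ℝ) = 762123385049 - r := by
        have : ((r + s : ℕ) : ℝ) = 762123385049 := by rw [hs]; norm_num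
        push_cast at this; linarith
      rw [this]; push_cast; ring
    rw [hn, Real.exp_add]
    have h2 : Real.exp (-((k + 1 : ℝ) * (762123385050 / (1099511627776 : ℝ)))) ≤ ((2 : ℝ) ^ (k + 1))⁻¹ := by
      rw [two_pow_eq_exp, ← Real.exp_neg]
      apply Real.exp_le_exp.2
      push_cast
      have := mul_le_mul_of_nonneg_left two_le_exp_hi (show (0 : ℝ) ≤ k + 1 by positivity)
      linarith
    have h3 : (A : ℝ) * ((2 : ℝ) ^ (k + 1))⁻¹ ≤ ((A / 2 ^ (k + 1) : ℕ) : ℝ) + 1 := by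
      rw [← div_eq_mul_inv, div_le_iff₀ (by positivity)]
      have := (Nat.lt_div_mul_add (a := A) (b := 2 ^ (k + 1)) (by positivity)).le
      have h2 : A ≤ (A / 2 ^ (k + 1) + 1) * 2 ^ (k + 1) := by rw [add_mul, one_mul]; exact this
      exact_mod_cast h2
    push_cast
    calc (1099511627776 : ℝ) * (Real.exp (-((k + 1 : ℝ) * (762123385050 / (1099511627776 : ℝ)))) * Real.exp (s / (1099511627776 : ℝ)))
        = ((1099511627776 : ℝ) * Real.exp (s / (1099511627776 : ℝ))) * Real.exp (-((k + 1 : ℝ) * (762123385050 / (1099511627776 : ℝ)))) := by ring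
      _ ≤ A * ((2 : ℝ) ^ (k + 1))⁻¹ := mul_le_mul h1 h2 (by positivity) (by positivity)
      _ ≤ _ := h3

theorem exp_mem {x : ℝ} {a : I} (hx : a.Mem x) : (exp a).Mem (Real.exp x) := by
  obtain ⟨h1, h2⟩ := hx
  constructor
  · show ((Int.ofNat (expLo a.lo) : ℤ) : ℝ) ≤ Real.exp x * (1099511627776 : ℝ)
    simp only [Int.ofNat_eq_natCast, Int.cast_natCast]
    refine (expLo_le a.lo).trans ?_
    rw [mul_comm]
    refine mul_le_mul_of_nonneg_right ?_ (by norm_num)
    apply Real.exp_le_exp.2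
    rw [div_le_iff₀ (by norm_num)]; exact h1
  · show Real.exp x * (1099511627776 : ℝ) ≤ ((Int.ofNat (expHi a.hi) : ℤ) : ℝ)
    simp only [Int.ofNat_eq_natCast, Int.cast_natCast]
    refine le_trans ?_ (le_expHi a.hi)
    rw [mul_comm]
    refine mul_le_mul_of_nonneg_left ?_ (by norm_num)
    apply Real.exp_le_exp.2
    rw [le_div_iff₀ (by norm_num)]; exact h2

end IA
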