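import Pool.Agent.Lib.Interval.AD

/-!
A faster version of the kernel checked branch and bound procedure of `Interval.AD`: intermediate results are
evaluated to literals, zero derivatives are not computed, and common subexpressions can be shared by levels of
substitutions.
-/

set_option autoImplicit false

namespace IA
namespace F

/-- evaluation of a natural number before the continuation -/
def fn {α : Type} (n : ℕ) (k : ℕ → α) : α := @Nat.rec (fun _ => α) (k 0) (fun m _ => k (Nat.succ m)) n

/-- evaluation of an integer before the continuation -/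
noncomputable def fz {α : Type} (z : ℤ) (k : ℤ → α) : α :=
  @Int.rec (fun _ => α) (fun n => fn n fun n => k (Int.ofNat n))
    (fun n => fn n fun n => k (Int.negSucc n)) z

/-- evaluation of an interval before the continuation -/
noncomputable def fI {α : Type} (a : I) (k : I → α) : α := fz a.lo fun l => fz a.hi fun h => k ⟨l, h⟩

theorem fn_eq {α : Type} (n : ℕ) (k : ℕ → α) : fn n k = k n := by cases n <;> rfl

theorem fz_eq {α : Type} (z : ℤ) (k : ℤ → α) : fz z k = k z := by
  cases z with
  | ofNat n => exact fn_eq n fun n => k (Int.ofNat n)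
  | negSucc n => exact fn_eq n fun n => k (Int.negSucc n)

theorem fI_eq {α : Type} (a : I) (k : I → α) : fI a k = k a := by
  unfold fI
  rw [fz_eq, fz_eq]

/-- evaluation of an optional interval before the continuation -/
noncomputable def fo {α : Type} (a : Option I) (k : Option I → α) : α :=
  @Option.rec I (fun _ => α) (k none) (fun a => fI a fun a => k (some a)) a

theorem fo_eq {α : Type} (a : Option I) (k : Option I → α) : fo a k = k a := by
  cases a with
  | none => rfl
  | some a => exact fI_eq a fun a => k (some a)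

/-! ### optional derivatives (`none`: the derivative is `0`) -/

noncomputable def oadd (x y : Option I) : Option I :=
  @Option.rec I (fun _ => Option I) y
    (fun x' => @Option.rec I (fun _ => Option I) (some x') (fun y => some (add x' y)) y) x

noncomputable def osub (x y : Option I) : Option I :=
  @Option.rec I (fun _ => Option I) (@Option.rec I (fun _ => Option I) none (fun y => some (neg y)) y)
    (fun x' => @Option.rec I (fun _ => Option I) (some x') (fun y => some (sub x' y)) y) x

noncomputable def omul (x : Option I) (y : I) : Option I :=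
  @Option.rec I (fun _ => Option I) none (fun x => some (mul x y)) x

noncomputable def odiv (x : Option I) (y : I) : Option I :=
  @Option.rec I (fun _ => Option I) none (fun x => some (div x y)) x

/-- the derivative of `u` at `s` is described by `o` -/
def OD (u : ℝ → ℝ) (s : ℝ) (o : Option I) : Prop :=
  ∃ d, HasDerivAt u d s ∧ (o = none → d = 0) ∧ ∀ A, o = some A → A.Mem d

theorem OD.none' {u : ℝ → ℝ} {s : ℝ} (h : HasDerivAt u 0 s) : OD u s none :=
  ⟨0, h, fun _ => rfl, fun _ h => by cases h⟩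

theorem OD.some' {u : ℝ → ℝ} {s d : ℝ} {A : I} (h : HasDerivAt u d s) (hd : A.Mem d) : OD u s (some A) :=
  ⟨d, h, by simp, by intro B hB; cases hB; exact hd⟩

theorem OD.cases {u : ℝ → ℝ} {s : ℝ} {o : Option I} (h : OD u s o) :
    (o = none ∧ HasDerivAt u 0 s) ∨ ∃ A d, o = some A ∧ HasDerivAt u d s ∧ A.Mem d := by
  obtain ⟨d, h1, h2, h3⟩ := h
  cases o with
  | none => left; exact ⟨rfl, by rw [← h2 rfl]; exact h1⟩
  | some A => right; exact ⟨A, d, rfl, h1, h3 A rfl⟩

theorem OD.add {u w : ℝ → ℝ} {s : ℝ} {a b : Option I} (hu : OD u s a) (hw : OD w s b) :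
    OD (fun t => u t + w t) s (oadd a b) := by
  rcases hu.cases with ⟨rfl, h1⟩ | ⟨A, d, rfl, h1, h2⟩
  · rcases hw.cases with ⟨rfl, h3⟩ | ⟨B, e, rfl, h3, h4⟩
    · exact OD.none' ((h1.add h3).congr_deriv (by ring))
    · exact OD.some' (h1.add h3) (by simpa using h4)
  · rcases hw.cases with ⟨rfl, h3⟩ | ⟨B, e, rfl, h3, h4⟩
    · exact OD.some' (h1.add h3) (by simpa using h2)
    · exact OD.some' (h1.add h3) (add_mem h2 h4)

theorem OD.sub {u w : ℝ → ℝ} {s : ℝ} {a b : Option I} (hu : OD u s a) (hw : OD w s b) :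
    OD (fun t => u t - w t) s (osub a b) := by
  rcases hu.cases with ⟨rfl, h1⟩ | ⟨A, d, rfl, h1, h2⟩
  · rcases hw.cases with ⟨rfl, h3⟩ | ⟨B, e, rfl, h3, h4⟩
    · exact OD.none' ((h1.sub h3).congr_deriv (by ring))
    · refine OD.some' (h1.sub h3) ?_
      rw [zero_sub]
      exact neg_mem h4
  · rcases hw.cases with ⟨rfl, h3⟩ | ⟨B, e, rfl, h3, h4⟩
    · exact OD.some' (h1.sub h3) (by simpa using h2)
    · exact OD.some' (h1.sub h3) (sub_mem h2 h4)

theorem OD.mul {u w : ℝ → ℝ} {s : ℝ} {a b : Option I} {V W : I} (hv : V.Mem (u s)) (hv' : W.Mem (w s))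
    (hu : OD u s a) (hw : OD w s b) :
    OD (fun t => u t * w t) s (oadd (omul a W) (omul b V)) := by
  rcases hu.cases with ⟨rfl, h1⟩ | ⟨A, d, rfl, h1, h2⟩
  · rcases hw.cases with ⟨rfl, h3⟩ | ⟨B, e, rfl, h3, h4⟩
    · exact OD.none' ((h1.mul h3).congr_deriv (by ring))
    · refine OD.some' (h1.mul h3) ?_
      rw [zero_mul, zero_add, mul_comm]
      exact mul_mem h4 hv
  · rcases hw.cases with ⟨rfl, h3⟩ | ⟨B, e, rfl, h3, h4⟩
    · refine OD.some' (h1.mul h3) ?_
      rw [mul_zero, add_zero]
      exact mul_mem h2 hv'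
    · refine OD.some' (h1.mul h3) (add_mem (mul_mem h2 hv') ?_)
      rw [mul_comm (u s)]
      exact mul_mem h4 hv

theorem OD.div {u w : ℝ → ℝ} {s : ℝ} {a b : Option I} {Q W : I} (hq : Q.Mem (u s / w s))
    (hv' : W.Mem (w s)) (hW : 0 < W.lo) (hu : OD u s a) (hw : OD w s b) :
    OD (fun t => u t / w t) s (odiv (osub a (omul b Q)) W) := by
  have hpos : 0 < w s := pos_of_mem hv' hW
  have key : ∀ d e : ℝ, HasDerivAt u d s → HasDerivAt w e s →
      HasDerivAt (fun t => u t / w t) ((d - e * (u s / w s)) / w s) s := by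
    intro d e h1 h2
    have e2 : (d - e * (u s / w s)) / w s = (d * w s - u s * e) / w s ^ 2 := by
      field_simp
    rw [e2]
    exact h1.div h2 hpos.ne'
  rcases hu.cases with ⟨rfl, h1⟩ | ⟨A, d, rfl, h1, h2⟩
  · rcases hw.cases with ⟨rfl, h3⟩ | ⟨B, e, rfl, h3, h4⟩
    · exact OD.none' (by simpa using key _ _ h1 h3)
    · refine OD.some' (key _ _ h1 h3) (div_mem ?_ hv' hW)
      rw [zero_sub]
      exact neg_mem (mul_mem h4 hq)
  · rcases hw.cases with ⟨rfl, h3⟩ | ⟨B, e, rfl, h3, h4⟩
    · refine OD.some' (key _ _ h1 h3) (div_mem ?_ hv' hW)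
      rw [zero_mul, sub_zero]
      exact h2
    · exact OD.some' (key _ _ h1 h3) (div_mem (sub_mem h2 (mul_mem h4 hq)) hv' hW)

theorem OD.log {u : ℝ → ℝ} {s : ℝ} {a : Option I} {V : I} (hv : V.Mem (u s)) (hV : 0 < V.lo)
    (hu : OD u s a) : OD (fun t => Real.log (u t)) s (odiv a V) := by
  have hpos : 0 < u s := pos_of_mem hv hV
  rcases hu.cases with ⟨rfl, h1⟩ | ⟨A, d, rfl, h1, h2⟩
  · exact OD.none' (by simpa using h1.log hpos.ne')
  · exact OD.some' (h1.log hpos.ne') (div_mem h2 hv hV)

theorem OD.exp {u : ℝ → ℝ} {s : ℝ} {a : Option I} {V : I} (hv : V.Mem (Real.exp (u s)))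
    (hu : OD u s a) : OD (fun t => Real.exp (u t)) s (omul a V) := by
  rcases hu.cases with ⟨rfl, h1⟩ | ⟨A, d, rfl, h1, h2⟩
  · exact OD.none' (by simpa using h1.exp)
  · refine OD.some' h1.exp ?_
    rw [mul_comm]
    exact mul_mem h2 hv

/-! ### automatic differentiation -/

/-- value and three partial derivatives -/
structure DF where
  v : I
  a : Option I
  b : Option I
  c : Option I

/-- a forced result -/
noncomputable def rt (v : I) (a b c : Option I) : Option DF :=
  fI v fun v => fo a fun a => fo b fun b => fo c fun c => some ⟨v, a, b, c⟩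

noncomputable def bi (A B : Option DF) (k : DF → DF → Option DF) : Option DF :=
  @Option.rec DF (fun _ => Option DF) none (fun f => @Option.rec DF (fun _ => Option DF) none
    (fun g => k f g) B) A

noncomputable def un (A : Option DF) (k : DF → Option DF) : Option DF :=
  @Option.rec DF (fun _ => Option DF) none (fun f => k f) A

noncomputable def mulF (f g : DF) : Option DF :=
  rt (mul f.v g.v) (oadd (omul f.a g.v) (omul g.a f.v)) (oadd (omul f.b g.v) (omul g.b f.v))
    (oadd (omul f.c g.v) (omul g.c f.v))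

noncomputable def divF (f g : DF) : Option DF :=
  cond (posI g.v) (fI (div f.v g.v) fun q => rt q (odiv (osub f.a (omul g.a q)) g.v)
    (odiv (osub f.b (omul g.b q)) g.v) (odiv (osub f.c (omul g.c q)) g.v)) none

noncomputable def logF (f : DF) : Option DF :=
  cond (posI f.v) (rt (log f.v) (odiv f.a f.v) (odiv f.b f.v) (odiv f.c f.v)) none

noncomputable def expF (f : DF) : Option DF :=
  fI (exp f.v) fun v => rt v (omul f.a v) (omul f.b v) (omul f.c v)

/-- automatic differentiation in the environment `X`, `Y`, `Z` -/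
noncomputable def adF (X Y Z : DF) (e : E) : Option DF :=
  @E.rec (fun _ => Option DF) (fun p q => cond (Nat.ble 1 q) (rt (cstI p q) none none none) none)
    (some X) (some Y) (some Z)
    (fun _ _ A B => bi A B fun f g => rt (add f.v g.v) (oadd f.a g.a) (oadd f.b g.b) (oadd f.c g.c))
    (fun _ _ A B => bi A B fun f g => rt (sub f.v g.v) (osub f.a g.a) (osub f.b g.b) (osub f.c g.c))
    (fun _ _ A B => bi A B mulF)
    (fun _ _ A B => bi A B divF)
    (fun _ A => un A logF)
    (fun _ A => un A expF) e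

noncomputable def bv (A B : Option I) (k : I → I → Option I) : Option I :=
  @Option.rec I (fun _ => Option I) none (fun f => @Option.rec I (fun _ => Option I) none
    (fun g => k f g) B) A

noncomputable def uv (A : Option I) (k : I → Option I) : Option I :=
  @Option.rec I (fun _ => Option I) none (fun f => k f) A

/-- interval evaluation -/
noncomputable def vf (X Y Z : I) (e : E) : Option I :=
  @E.rec (fun _ => Option I) (fun p q => cond (Nat.ble 1 q) (fI (cstI p q) some) none)
    (some X) (some Y) (some Z)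
    (fun _ _ A B => bv A B fun v w => fI (add v w) some)
    (fun _ _ A B => bv A B fun v w => fI (sub v w) some)
    (fun _ _ A B => bv A B fun v w => fI (mul v w) some)
    (fun _ _ A B => bv A B fun v w => cond (posI w) (fI (div v w) some) none)
    (fun _ A => uv A fun v => cond (posI v) (fI (log v) some) none)
    (fun _ A => uv A fun v => fI (exp v) some) e

/-- correctness of a quadruple for the function `U` at a point -/
structure GoodF (f : DF) (U : ℝ → ℝ → ℝ → ℝ) (x y z : ℝ) : Prop where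
  v : f.v.Mem (U x y z)
  a : OD (fun s => U s y z) x f.a
  b : OD (fun s => U x s z) y f.b
  c : OD (fun s => U x y s) z f.c

theorem rt_eq (v : I) (a b c : Option I) : rt v a b c = some ⟨v, a, b, c⟩ := by
  unfold rt
  rw [fI_eq, fo_eq, fo_eq, fo_eq]

theorem bi_some {A B : Option DF} {k : DF → DF → Option DF} {f : DF} (h : bi A B k = some f) :
    ∃ u w, A = some u ∧ B = some w ∧ k u w = some f := by
  cases A with
  | none => exact absurd h (by simp [bi])
  | some u =>
    cases B with
    | none => exact absurd h (by simp [bi])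
    | some w => exact ⟨u, w, rfl, rfl, h⟩

theorem un_some {A : Option DF} {k : DF → Option DF} {f : DF} (h : un A k = some f) :
    ∃ u, A = some u ∧ k u = some f := by
  cases A with
  | none => exact absurd h (by simp [un])
  | some u => exact ⟨u, rfl, h⟩

theorem bv_some {A B : Option I} {k : I → I → Option I} {f : I} (h : bv A B k = some f) :
    ∃ u w, A = some u ∧ B = some w ∧ k u w = some f := by
  cases A with
  | none => exact absurd h (by simp [bv])
  | some u =>
    cases B with
    | none => exact absurd h (by simp [bv])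
    | some w => exact ⟨u, w, rfl, rfl, h⟩

theorem uv_some {A : Option I} {k : I → Option I} {f : I} (h : uv A k = some f) :
    ∃ u, A = some u ∧ k u = some f := by
  cases A with
  | none => exact absurd h (by simp [uv])
  | some u => exact ⟨u, rfl, h⟩

theorem cond_some {α : Type} {b : Bool} {A : Option α} {f : α} (h : cond b A none = some f) :
    b = true ∧ A = some f := by
  cases b with
  | false => simp at h
  | true => exact ⟨rfl, h⟩

theorem adF_sound (X Y Z : DF) (ux uy uz : ℝ → ℝ → ℝ → ℝ) (x y z : ℝ) (hX : GoodF X ux x y z)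
    (hY : GoodF Y uy x y z) (hZ : GoodF Z uz x y z) : ∀ (e : E) (f : DF), adF X Y Z e = some f →
    GoodF f (fun x y z => e.ev (ux x y z) (uy x y z) (uz x y z)) x y z := by
  intro e
  induction e with
  | cst p q =>
    intro f h
    have h' : cond (Nat.ble 1 q) (rt (cstI p q) none none none) none = some f := h
    obtain ⟨hq, h'⟩ := cond_some h'
    rw [rt_eq, Option.some.injEq] at h'
    rw [← h']
    exact ⟨cst_mem p (by rwa [Nat.ble_eq] at hq), OD.none' (hasDerivAt_const _ _),
      OD.none' (hasDerivAt_const _ _), OD.none' (hasDerivAt_const _ _)⟩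
  | x0 =>
    intro f h
    have h' : some X = some f := h
    rw [Option.some.injEq] at h'
    rw [← h']
    exact hX
  | x1 =>
    intro f h
    have h' : some Y = some f := h
    rw [Option.some.injEq] at h'
    rw [← h']
    exact hY
  | x2 =>
    intro f h
    have h' : some Z = some f := h
    rw [Option.some.injEq] at h'
    rw [← h']
    exact hZ
  | add a b iha ihb =>
    intro f h
    obtain ⟨u, w, hu, hw, h'⟩ := bi_some (show bi (adF X Y Z a) (adF X Y Z b) _ = some f from h)
    rw [rt_eq, Option.some.injEq] at h'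
    rw [← h']
    have h1 := iha _ hu
    have h2 := ihb _ hw
    exact ⟨add_mem h1.v h2.v, h1.a.add h2.a, h1.b.add h2.b, h1.c.add h2.c⟩
  | sub a b iha ihb =>
    intro f h
    obtain ⟨u, w, hu, hw, h'⟩ := bi_some (show bi (adF X Y Z a) (adF X Y Z b) _ = some f from h)
    rw [rt_eq, Option.some.injEq] at h'
    rw [← h']
    have h1 := iha _ hu
    have h2 := ihb _ hw
    exact ⟨sub_mem h1.v h2.v, h1.a.sub h2.a, h1.b.sub h2.b, h1.c.sub h2.c⟩
  | mul a b iha ihb =>
    intro f h
    obtain ⟨u, w, hu, hw, h'⟩ := bi_some (show bi (adF X Y Z a) (adF X Y Z b) _ = some f from h)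
    unfold mulF at h'
    rw [rt_eq, Option.some.injEq] at h'
    rw [← h']
    have h1 := iha _ hu
    have h2 := ihb _ hw
    exact ⟨mul_mem h1.v h2.v, OD.mul h1.v h2.v h1.a h2.a, OD.mul h1.v h2.v h1.b h2.b,
      OD.mul h1.v h2.v h1.c h2.c⟩
  | div a b iha ihb =>
    intro f h
    obtain ⟨u, w, hu, hw, h'⟩ := bi_some (show bi (adF X Y Z a) (adF X Y Z b) _ = some f from h)
    unfold divF at h'
    obtain ⟨hp, h'⟩ := cond_some h'
    rw [fI_eq, rt_eq, Option.some.injEq] at h'
    rw [← h']
    have h1 := iha _ hu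
    have h2 := ihb _ hw
    have hq := div_mem h1.v h2.v (posI_pos hp)
    exact ⟨hq, OD.div hq h2.v (posI_pos hp) h1.a h2.a, OD.div hq h2.v (posI_pos hp) h1.b h2.b,
      OD.div hq h2.v (posI_pos hp) h1.c h2.c⟩
  | log a iha =>
    intro f h
    obtain ⟨u, hu, h'⟩ := un_some (show un (adF X Y Z a) _ = some f from h)
    unfold logF at h'
    obtain ⟨hp, h'⟩ := cond_some h'
    rw [rt_eq, Option.some.injEq] at h'
    rw [← h']
    have h1 := iha _ hu
    exact ⟨log_mem h1.v (posI_pos hp), OD.log h1.v (posI_pos hp) h1.a, OD.log h1.v (posI_pos hp) h1.b,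
      OD.log h1.v (posI_pos hp) h1.c⟩
  | exp a iha =>
    intro f h
    obtain ⟨u, hu, h'⟩ := un_some (show un (adF X Y Z a) _ = some f from h)
    unfold expF at h'
    rw [fI_eq, rt_eq, Option.some.injEq] at h'
    rw [← h']
    have h1 := iha _ hu
    have hq := exp_mem h1.v
    exact ⟨hq, OD.exp hq h1.a, OD.exp hq h1.b, OD.exp hq h1.c⟩

theorem vf_sound {X Y Z : I} {x y z : ℝ} (hx : X.Mem x) (hy : Y.Mem y) (hz : Z.Mem z) :
    ∀ (e : E) (f : I), vf X Y Z e = some f → f.Mem (e.ev x y z) := by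
  intro e
  induction e with
  | cst p q =>
    intro f h
    have h' : cond (Nat.ble 1 q) (fI (cstI p q) some) none = some f := h
    obtain ⟨hq, h'⟩ := cond_some h'
    rw [fI_eq, Option.some.injEq] at h'
    rw [← h']
    exact cst_mem p (by rwa [Nat.ble_eq] at hq)
  | x0 =>
    intro f h
    have h' : some X = some f := h
    rw [Option.some.injEq] at h'
    rw [← h']
    exact hx
  | x1 =>
    intro f h
    have h' : some Y = some f := h
    rw [Option.some.injEq] at h'
    rw [← h']
    exact hy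
  | x2 =>
    intro f h
    have h' : some Z = some f := h
    rw [Option.some.injEq] at h'
    rw [← h']
    exact hz
  | add a b iha ihb =>
    intro f h
    obtain ⟨u, w, hu, hw, h'⟩ := bv_some (show bv (vf X Y Z a) (vf X Y Z b) _ = some f from h)
    rw [fI_eq, Option.some.injEq] at h'
    rw [← h']
    exact add_mem (iha _ hu) (ihb _ hw)
  | sub a b iha ihb =>
    intro f h
    obtain ⟨u, w, hu, hw, h'⟩ := bv_some (show bv (vf X Y Z a) (vf X Y Z b) _ = some f from h)
    rw [fI_eq, Option.some.injEq] at h'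
    rw [← h']
    exact sub_mem (iha _ hu) (ihb _ hw)
  | mul a b iha ihb =>
    intro f h
    obtain ⟨u, w, hu, hw, h'⟩ := bv_some (show bv (vf X Y Z a) (vf X Y Z b) _ = some f from h)
    rw [fI_eq, Option.some.injEq] at h'
    rw [← h']
    exact mul_mem (iha _ hu) (ihb _ hw)
  | div a b iha ihb =>
    intro f h
    obtain ⟨u, w, hu, hw, h'⟩ := bv_some (show bv (vf X Y Z a) (vf X Y Z b) _ = some f from h)
    obtain ⟨hp, h'⟩ := cond_some h'
    rw [fI_eq, Option.some.injEq] at h'
    rw [← h']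
    exact div_mem (iha _ hu) (ihb _ hw) (posI_pos hp)
  | log a iha =>
    intro f h
    obtain ⟨u, hu, h'⟩ := uv_some (show uv (vf X Y Z a) _ = some f from h)
    obtain ⟨hp, h'⟩ := cond_some h'
    rw [fI_eq, Option.some.injEq] at h'
    rw [← h']
    exact log_mem (iha _ hu) (posI_pos hp)
  | exp a iha =>
    intro f h
    obtain ⟨u, hu, h'⟩ := uv_some (show uv (vf X Y Z a) _ = some f from h)
    rw [fI_eq, Option.some.injEq] at h'
    rw [← h']
    exact exp_mem (iha _ hu)

/-! ### levels -/

/-- substitutions: each level replaces the three variables by three expressions -/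
abbrev Lv := List (E × E × E)

/-- the values of the variables after the levels -/
noncomputable def evL : Lv → ℝ → ℝ → ℝ → ℝ × ℝ × ℝ
  | [], x, y, z => (x, y, z)
  | p :: l, x, y, z => evL l (p.1.ev x y z) (p.2.1.ev x y z) (p.2.2.ev x y z)

/-- the value of an expression after the levels -/
noncomputable def evF (l : Lv) (e : E) (x y z : ℝ) : ℝ :=
  e.ev (evL l x y z).1 (evL l x y z).2.1 (evL l x y z).2.2

noncomputable def bb (A : Option DF) (k : DF → Bool) : Bool :=
  @Option.rec DF (fun _ => Bool) false (fun f => k f) A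

noncomputable def bi' (A : Option I) (k : I → Bool) : Bool :=
  @Option.rec I (fun _ => Bool) false (fun f => k f) A

theorem bb_true {A : Option DF} {k : DF → Bool} (h : bb A k = true) : ∃ u, A = some u ∧ k u = true := by
  cases A with
  | none => exact absurd h (by simp [bb])
  | some u => exact ⟨u, rfl, h⟩

theorem bi'_true {A : Option I} {k : I → Bool} (h : bi' A k = true) : ∃ u, A = some u ∧ k u = true := by
  cases A with
  | none => exact absurd h (by simp [bi'])
  | some u => exact ⟨u, rfl, h⟩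

/-- differentiation through the levels -/
noncomputable def adL (k : DF → DF → DF → Bool) (l : Lv) : DF → DF → DF → Bool :=
  @List.rec (E × E × E) (fun _ => DF → DF → DF → Bool) k
    (fun p _ ih X Y Z => bb (adF X Y Z p.1) fun X' => bb (adF X Y Z p.2.1) fun Y' =>
      bb (adF X Y Z p.2.2) fun Z' => ih X' Y' Z') l

/-- evaluation through the levels -/
noncomputable def vL (k : I → I → I → Bool) (l : Lv) : I → I → I → Bool :=
  @List.rec (E × E × E) (fun _ => I → I → I → Bool) k
    (fun p _ ih X Y Z => bi' (vf X Y Z p.1) fun X' => bi' (vf X Y Z p.2.1) fun Y' =>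
      bi' (vf X Y Z p.2.2) fun Z' => ih X' Y' Z') l

theorem adL_sound (k : DF → DF → DF → Bool) (l : Lv) : ∀ (X Y Z : DF), adL k l X Y Z = true →
    ∃ X' Y' Z', k X' Y' Z' = true ∧ ∀ (ux uy uz : ℝ → ℝ → ℝ → ℝ) (x y z : ℝ), GoodF X ux x y z →
      GoodF Y uy x y z → GoodF Z uz x y z →
      GoodF X' (fun x y z => (evL l (ux x y z) (uy x y z) (uz x y z)).1) x y z ∧
      GoodF Y' (fun x y z => (evL l (ux x y z) (uy x y z) (uz x y z)).2.1) x y z ∧
      GoodF Z' (fun x y z => (evL l (ux x y z) (uy x y z) (uz x y z)).2.2) x y z := by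
  induction l with
  | nil => intro X Y Z h; exact ⟨X, Y, Z, h, fun ux uy uz x y z hX hY hZ => ⟨hX, hY, hZ⟩⟩
  | cons p l ih =>
    intro X Y Z h
    obtain ⟨X1, hX1, h⟩ := bb_true (show bb (adF X Y Z p.1) _ = true from h)
    obtain ⟨Y1, hY1, h⟩ := bb_true h
    obtain ⟨Z1, hZ1, h⟩ := bb_true h
    obtain ⟨X', Y', Z', hk, hg⟩ := ih X1 Y1 Z1 h
    refine ⟨X', Y', Z', hk, fun ux uy uz x y z hX hY hZ => ?_⟩
    exact hg _ _ _ x y z (adF_sound X Y Z ux uy uz x y z hX hY hZ p.1 X1 hX1)
      (adF_sound X Y Z ux uy uz x y z hX hY hZ p.2.1 Y1 hY1)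
      (adF_sound X Y Z ux uy uz x y z hX hY hZ p.2.2 Z1 hZ1)

theorem vL_sound (k : I → I → I → Bool) (l : Lv) : ∀ (X Y Z : I) (x y z : ℝ), X.Mem x → Y.Mem y →
    Z.Mem z → vL k l X Y Z = true → ∃ X' Y' Z', k X' Y' Z' = true ∧ X'.Mem (evL l x y z).1 ∧
      Y'.Mem (evL l x y z).2.1 ∧ Z'.Mem (evL l x y z).2.2 := by
  induction l with
  | nil => intro X Y Z x y z hx hy hz h; exact ⟨X, Y, Z, h, hx, hy, hz⟩
  | cons p l ih =>
    intro X Y Z x y z hx hy hz h
    obtain ⟨X1, hX1, h⟩ := bi'_true (show bi' (vf X Y Z p.1) _ = true from h)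
    obtain ⟨Y1, hY1, h⟩ := bi'_true h
    obtain ⟨Z1, hZ1, h⟩ := bi'_true h
    exact ih X1 Y1 Z1 _ _ _ (vf_sound hx hy hz _ _ hX1) (vf_sound hx hy hz _ _ hY1)
      (vf_sound hx hy hz _ _ hZ1) h

/-! ### the tests -/

/-- contribution of one variable to the centered form -/
noncomputable def ct (a : Option I) (X : I) (m : ℤ) : ℤ :=
  @Option.rec I (fun _ => ℤ) 0 (fun a => (mul a (sub X (pt m))).hi) a

/-- upper end of the centered form is `≤ 0` -/
noncomputable def leF (l : Lv) (e : E) (X Y Z : I) : Bool :=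
  fz (mid X) fun mx => fz (mid Y) fun my => fz (mid Z) fun mz =>
  vL (fun X1 Y1 Z1 => bi' (vf X1 Y1 Z1 e) fun g =>
    adL (fun X2 Y2 Z2 => bb (adF X2 Y2 Z2 e) fun f =>
      ile (Int.add (Int.add g.hi (ct f.a X mx)) (Int.add (ct f.b Y my) (ct f.c Z mz))) 0) l
      ⟨X, some oneI, none, none⟩ ⟨Y, none, some oneI, none⟩ ⟨Z, none, none, some oneI⟩) l
    (pt mx) (pt my) (pt mz)

/-- plain test -/
noncomputable def leW (l : Lv) (e : E) (X Y Z : I) : Bool :=
  vL (fun X1 Y1 Z1 => bi' (vf X1 Y1 Z1 e) fun g => ile g.hi 0) l X Y Z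

theorem leW_sound {l : Lv} {e : E} {X Y Z : I} {x y z : ℝ} (h : leW l e X Y Z = true)
    (hx : X.Mem x) (hy : Y.Mem y) (hz : Z.Mem z) : evF l e x y z ≤ 0 := by
  obtain ⟨X', Y', Z', h1, h2, h3, h4⟩ := vL_sound _ l X Y Z x y z hx hy hz h
  obtain ⟨f, hf, h5⟩ := bi'_true h1
  rw [ile_iff] at h5
  have h0 := (vf_sound h2 h3 h4 e f hf).2
  have h1 : (f.hi : ℝ) ≤ 0 := by exact_mod_cast h5
  unfold evF
  nlinarith

theorem ct_sound {u : ℝ → ℝ} {x c : ℝ} {X : I} {o : Option I} {m : ℤ} (hx : X.Mem x) (hc : X.Mem c)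
    (hm : (pt m).Mem c) (hd : ∀ s, X.Mem s → OD u s o) :
    (u x - u c) * 1099511627776 ≤ (ct o X m : ℝ) := by
  cases o with
  | none =>
    obtain ⟨d, h1, h2⟩ := mvt_step (A := zeroI) hx hc (fun s hs => by
      obtain ⟨d, hd1, hd2, _⟩ := hd s hs
      have := hd2 rfl
      subst this
      exact ⟨0, hd1, zero_mem⟩)
    have h3 : d = 0 := by
      obtain ⟨h3, h4⟩ := h1
      simp only [zeroI, Int.cast_zero] at h3 h4
      nlinarith
    rw [h2, h3]
    simp [ct]
  | some A =>
    obtain ⟨d, h1, h2⟩ := mvt_step (A := A) hx hc (fun s hs => by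
      obtain ⟨d, hd1, _, hd2⟩ := hd s hs
      exact ⟨d, hd1, hd2 A rfl⟩)
    have h3 := (mul_mem h1 (sub_mem hx hm)).2
    rw [h2]
    have e : (u c + d * (x - c) - u c) = d * (x - c) := by ring
    rw [e]
    exact h3

theorem leF_sound {l : Lv} {e : E} {X Y Z : I} {x y z : ℝ} (h : leF l e X Y Z = true)
    (hx : X.Mem x) (hy : Y.Mem y) (hz : Z.Mem z) : evF l e x y z ≤ 0 := by
  unfold leF at h
  rw [fz_eq, fz_eq, fz_eq] at h
  have hcx := mid_mem' hx
  have hcy := mid_mem' hy
  have hcz := mid_mem' hz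
  have px := pt_mem (mid X)
  have py := pt_mem (mid Y)
  have pz := pt_mem (mid Z)
  generalize (mid X : ℝ) / 1099511627776 = cx at hcx px
  generalize (mid Y : ℝ) / 1099511627776 = cy at hcy py
  generalize (mid Z : ℝ) / 1099511627776 = cz at hcz pz
  obtain ⟨X1, Y1, Z1, h1, q1, q2, q3⟩ := vL_sound _ l _ _ _ cx cy cz px py pz h
  obtain ⟨g, hg, h2⟩ := bi'_true h1
  have h0 := (vf_sound q1 q2 q3 e g hg).2
  obtain ⟨X2, Y2, Z2, h3, h4⟩ := adL_sound _ l _ _ _ h2
  obtain ⟨f, hf, h5⟩ := bb_true h3
  rw [ile_iff] at h5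
  -- the derivatives on the box
  have hgood : ∀ x y z, X.Mem x → Y.Mem y → Z.Mem z → GoodF f (evF l e) x y z := by
    intro x y z hx hy hz
    have gX : GoodF ⟨X, some oneI, none, none⟩ (fun x _ _ => x) x y z :=
      ⟨hx, OD.some' (hasDerivAt_id x) one_mem, OD.none' (hasDerivAt_const _ _),
        OD.none' (hasDerivAt_const _ _)⟩
    have gY : GoodF ⟨Y, none, some oneI, none⟩ (fun _ y _ => y) x y z :=
      ⟨hy, OD.none' (hasDerivAt_const _ _), OD.some' (hasDerivAt_id y) one_mem,
        OD.none' (hasDerivAt_const _ _)⟩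
    have gZ : GoodF ⟨Z, none, none, some oneI⟩ (fun _ _ z => z) x y z :=
      ⟨hz, OD.none' (hasDerivAt_const _ _), OD.none' (hasDerivAt_const _ _),
        OD.some' (hasDerivAt_id z) one_mem⟩
    obtain ⟨a1, a2, a3⟩ := h4 _ _ _ x y z gX gY gZ
    exact adF_sound X2 Y2 Z2 _ _ _ x y z a1 a2 a3 e f hf
  have m1 := ct_sound (u := fun s => evF l e s y z) hx hcx px (fun s hs => (hgood s y z hs hy hz).a)
  have m2 := ct_sound (u := fun s => evF l e cx s z) hy hcy py (fun s hs => (hgood cx s z hcx hs hz).b)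
  have m3 := ct_sound (u := fun s => evF l e cx cy s) hz hcz pz (fun s hs => (hgood cx cy s hcx hcy hs).c)
  have hR : ((g.hi + ct f.a X (mid X) + (ct f.b Y (mid Y) + ct f.c Z (mid Z)) : ℤ) : ℝ) ≤ 0 :=
    Int.cast_nonpos.2 h5
  push_cast at hR
  have h6 : evF l e cx cy cz * 1099511627776 ≤ (g.hi : ℝ) := h0
  have h7 : evF l e x y z * 1099511627776 ≤ 0 := by nlinarith
  nlinarith

/-- branch and bound -/
noncomputable def chkF (l : Lv) (es : List E) (t : T) : I → I → I → Bool :=
  @T.rec (fun _ => I → I → I → Bool)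
    (fun k X Y Z => @Option.rec E (fun _ => Bool) false (fun e => leW l e X Y Z) (nth es k))
    (fun k X Y Z => @Option.rec E (fun _ => Bool) false (fun e => leF l e X Y Z) (nth es k))
    (fun _ _ L R X Y Z => fz (mid X) fun m => cond (L ⟨X.lo, m⟩ Y Z) (R ⟨m, X.hi⟩ Y Z) false)
    (fun _ _ L R X Y Z => fz (mid Y) fun m => cond (L X ⟨Y.lo, m⟩ Z) (R X ⟨m, Y.hi⟩ Z) false)
    (fun _ _ L R X Y Z => fz (mid Z) fun m => cond (L X Y ⟨Z.lo, m⟩) (R X Y ⟨m, Z.hi⟩) false) t

theorem chkF_sound (l : Lv) (es : List E) : ∀ (t : T) (X Y Z : I), chkF l es t X Y Z = true →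
    ∀ x y z, X.Mem x → Y.Mem y → Z.Mem z → ∃ e ∈ es, evF l e x y z ≤ 0 := by
  intro t
  induction t with
  | v k =>
    intro X Y Z h x y z hx hy hz
    have h' : @Option.rec E (fun _ => Bool) false (fun e => leW l e X Y Z) (nth es k) = true := h
    cases he : nth es k with
    | none => rw [he] at h'; exact absurd h' (by simp)
    | some e => rw [he] at h'; exact ⟨e, nth_mem _ _ _ he, leW_sound h' hx hy hz⟩
  | d k =>
    intro X Y Z h x y z hx hy hz
    have h' : @Option.rec E (fun _ => Bool) false (fun e => leF l e X Y Z) (nth es k) = true := h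
    cases he : nth es k with
    | none => rw [he] at h'; exact absurd h' (by simp)
    | some e => rw [he] at h'; exact ⟨e, nth_mem _ _ _ he, leF_sound h' hx hy hz⟩
  | s0 L R ihl ihr =>
    intro X Y Z h x y z hx hy hz
    have h' : fz (mid X) (fun m => cond (chkF l es L ⟨X.lo, m⟩ Y Z) (chkF l es R ⟨m, X.hi⟩ Y Z) false)
      = true := h
    rw [fz_eq] at h'
    obtain ⟨h1, h2⟩ := cond_and h'
    rcases split_mem (mid X) hx with hx | hx
    · exact ihl _ _ _ h1 x y z hx hy hz
    · exact ihr _ _ _ h2 x y z hx hy hz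
  | s1 L R ihl ihr =>
    intro X Y Z h x y z hx hy hz
    have h' : fz (mid Y) (fun m => cond (chkF l es L X ⟨Y.lo, m⟩ Z) (chkF l es R X ⟨m, Y.hi⟩ Z) false)
      = true := h
    rw [fz_eq] at h'
    obtain ⟨h1, h2⟩ := cond_and h'
    rcases split_mem (mid Y) hy with hy | hy
    · exact ihl _ _ _ h1 x y z hx hy hz
    · exact ihr _ _ _ h2 x y z hx hy hz
  | s2 L R ihl ihr =>
    intro X Y Z h x y z hx hy hz
    have h' : fz (mid Z) (fun m => cond (chkF l es L X Y ⟨Z.lo, m⟩) (chkF l es R X Y ⟨m, Z.hi⟩) false)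
      = true := h
    rw [fz_eq] at h'
    obtain ⟨h1, h2⟩ := cond_and h'
    rcases split_mem (mid Z) hz with hz | hz
    · exact ihl _ _ _ h1 x y z hx hy hz
    · exact ihr _ _ _ h2 x y z hx hy hz

end F
end IA
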