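import Pool.Agent.Lib.Interval.AD

/-!
Numerical bounds for the Euler-Mascheroni constant.
-/

namespace IA

open Filter Topology

/-- the accelerated lower sequence -/
noncomputable def gA (n : ℕ) : ℝ := (harmonic (n + 1) : ℝ) - Real.log ((n + 1 : ℕ) : ℝ) - 1 / (2 * ((n + 1 : ℕ) : ℝ))
/-- the accelerated upper sequence -/
noncomputable def gB (n : ℕ) : ℝ := gA n + 1 / (12 * ((n + 1 : ℕ) : ℝ) ^ 2)

theorem log_step (m : ℝ) (hm : 0 < m) :
    Real.log (m + 1) - Real.log m ≤ (1 / m + 1 / (m + 1)) / 2 ∧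
    (1 / m + 1 / (m + 1)) / 2 - (1 / m ^ 2 - 1 / (m + 1) ^ 2) / 12 ≤
      Real.log (m + 1) - Real.log m := by
  set x : ℝ := 1 / (2 * m + 1) with hx
  have hx0 : 0 < x := by positivity
  have hx1 : x < 1 := by rw [hx, div_lt_one (by positivity)]; linarith
  have e : Real.log (m + 1) - Real.log m = Real.log ((1 + x) / (1 - x)) := by
    rw [← Real.log_div (by positivity) hm.ne']
    congr 1
    have h1 : 1 - x = 2 * m / (2 * m + 1) := by rw [hx]; field_simp; ring
    have h2 : 1 + x = 2 * (m + 1) / (2 * m + 1) := by rw [hx]; field_simp; ring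
    rw [h1, h2]; field_simp
  rw [e]
  have hup := Real.log_div_le_sum_range_add hx0.le hx1 1
  have hlo := Real.sum_range_le_log_div hx0.le hx1 2
  simp only [Finset.sum_range_succ, Finset.sum_range_zero] at hup hlo
  norm_num at hup hlo
  have hq : 0 < 1 - x ^ 2 := by nlinarith
  have hmx : m = (1 - x) / (2 * x) := by
    rw [hx]; field_simp; ring
  have h3 : (1 / m + 1 / (m + 1)) / 2 = 2 * x / (1 - x ^ 2) := by
    rw [hmx]
    have h4 : 1 - x ≠ 0 := by linarith
    have h5 : (1 - x) / (2 * x) + 1 = (1 + x) / (2 * x) := by field_simp; ring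
    have h6 : 1 + x ≠ 0 := by positivity
    rw [h5]
    have h7 : 1 - x ^ 2 = (1 - x) * (1 + x) := by ring
    rw [h7]
    field_simp
    ring
  have h4 : (1 / m ^ 2 - 1 / (m + 1) ^ 2) / 12 = (4 / 3) * x ^ 3 / (1 - x ^ 2) ^ 2 := by
    rw [hmx]
    have h4 : 1 - x ≠ 0 := by linarith
    have h5 : (1 - x) / (2 * x) + 1 = (1 + x) / (2 * x) := by field_simp; ring
    have h6 : 1 + x ≠ 0 := by positivity
    rw [h5]
    have h7 : 1 - x ^ 2 = (1 - x) * (1 + x) := by ring
    rw [h7]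
    field_simp
    ring
  constructor
  · rw [h3]
    have h5 : x + x ^ 3 / (1 - x ^ 2) = x / (1 - x ^ 2) := by
      field_simp; ring
    have h6 : 2 * x / (1 - x ^ 2) = 2 * (x / (1 - x ^ 2)) := by ring
    rw [h6]
    linarith
  · rw [h3, h4]
    have h5 : 2 * x / (1 - x ^ 2) - (4 / 3) * x ^ 3 / (1 - x ^ 2) ^ 2 ≤ 2 * (x + x ^ 3 / 3) := by
      have h8 : 2 * x / (1 - x ^ 2) - (4 / 3) * x ^ 3 / (1 - x ^ 2) ^ 2
          = (2 * x * (1 - x ^ 2) - (4 / 3) * x ^ 3) / (1 - x ^ 2) ^ 2 := by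
        field_simp
      rw [h8, div_le_iff₀ (by positivity)]
      have h9 : 2 * (x + x ^ 3 / 3) * (1 - x ^ 2) ^ 2 - (2 * x * (1 - x ^ 2) - (4 / 3) * x ^ 3)
        = 2 * x ^ 5 / 3 + 2 * x ^ 7 / 3 := by ring
      have h10 : 0 ≤ 2 * x ^ 5 / 3 + 2 * x ^ 7 / 3 := by positivity
      linarith
    linarith

theorem gA_mono : Monotone gA := by
  refine monotone_nat_of_le_succ fun n => ?_
  have h := (log_step ((n + 1 : ℕ) : ℝ) (by positivity)).1
  unfold gA
  rw [harmonic_succ (n + 1)]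
  push_cast at h ⊢
  have e : ((n : ℝ) + 1 + 1)⁻¹ = 1 / ((n : ℝ) + 1 + 1) := by rw [one_div]
  rw [e]
  have h2 : 1 / (2 * ((n : ℝ) + 1)) = (1 / ((n : ℝ) + 1)) / 2 := by field_simp
  have h3 : 1 / (2 * ((n : ℝ) + 1 + 1)) = (1 / ((n : ℝ) + 1 + 1)) / 2 := by field_simp
  rw [h2, h3]
  linarith

theorem gB_anti : Antitone gB := by
  refine antitone_nat_of_succ_le fun n => ?_
  have h := (log_step ((n + 1 : ℕ) : ℝ) (by positivity)).2
  unfold gB gA
  rw [harmonic_succ (n + 1)]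
  push_cast at h ⊢
  have e : ((n : ℝ) + 1 + 1)⁻¹ = 1 / ((n : ℝ) + 1 + 1) := by rw [one_div]
  rw [e]
  have h2 : 1 / (2 * ((n : ℝ) + 1)) = (1 / ((n : ℝ) + 1)) / 2 := by field_simp
  have h3 : 1 / (2 * ((n : ℝ) + 1 + 1)) = (1 / ((n : ℝ) + 1 + 1)) / 2 := by field_simp
  have h4 : 1 / (12 * ((n : ℝ) + 1) ^ 2) = (1 / ((n : ℝ) + 1) ^ 2) / 12 := by field_simp
  have h5 : 1 / (12 * ((n : ℝ) + 1 + 1) ^ 2) = (1 / ((n : ℝ) + 1 + 1) ^ 2) / 12 := by field_simp
  rw [h2, h3, h4, h5]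
  linarith

theorem tendsto_gA : Tendsto gA atTop (𝓝 Real.eulerMascheroniConstant) := by
  have h1 := (tendsto_add_atTop_iff_nat 1).2 Real.tendsto_harmonic_sub_log
  have h2 : Tendsto (fun n : ℕ => 1 / (2 * ((n + 1 : ℕ) : ℝ))) atTop (𝓝 0) := by
    have h3 : Tendsto (fun n : ℕ => (1 / 2) * (1 / ((n : ℝ) + 1))) atTop (𝓝 ((1 / 2) * 0)) :=
      tendsto_one_div_add_atTop_nhds_zero_nat.const_mul _
    rw [mul_zero] at h3
    refine h3.congr fun n => ?_
    push_cast
    field_simp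
  have h3 := h1.sub h2
  rw [sub_zero] at h3
  exact h3

theorem tendsto_gB : Tendsto gB atTop (𝓝 Real.eulerMascheroniConstant) := by
  have h2 : Tendsto (fun n : ℕ => 1 / (12 * ((n + 1 : ℕ) : ℝ) ^ 2)) atTop (𝓝 0) := by
    have h3 : Tendsto (fun n : ℕ => (1 / 12) * ((1 / ((n : ℝ) + 1)) * (1 / ((n : ℝ) + 1)))) atTop
        (𝓝 ((1 / 12) * (0 * 0))) :=
      (tendsto_one_div_add_atTop_nhds_zero_nat.mul
        tendsto_one_div_add_atTop_nhds_zero_nat).const_mul _
    rw [mul_zero, mul_zero] at h3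
    refine h3.congr fun n => ?_
    push_cast
    field_simp
  have h3 := tendsto_gA.add h2
  rw [add_zero] at h3
  exact h3

theorem gA_le (n : ℕ) : gA n ≤ Real.eulerMascheroniConstant := gA_mono.ge_of_tendsto tendsto_gA n
theorem le_gB (n : ℕ) : Real.eulerMascheroniConstant ≤ gB n := gB_anti.le_of_tendsto tendsto_gB n

theorem log50_bounds : (4301314779 : ℝ) / 1099511627776 * 1000 ≤ Real.log 50 ∧
    Real.log 50 ≤ (4301314788 : ℝ) / 1099511627776 * 1000 := by
  have h := log_mem (cst_mem 50 (q := 1) (by norm_num)) (posI_pos (by decide +kernel))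
  obtain ⟨h1, h2⟩ := h
  have e1 : ile 4301314779000 (log (cstI 50 1)).lo = true := by decide +kernel
  have e2 : ile (log (cstI 50 1)).hi 4301314788000 = true := by decide +kernel
  rw [ile_iff] at e1 e2
  have e1' : (4301314779000 : ℝ) ≤ ((log (cstI 50 1)).lo : ℝ) := by exact_mod_cast e1
  have e2' : ((log (cstI 50 1)).hi : ℝ) ≤ (4301314788000 : ℝ) := by exact_mod_cast e2
  push_cast at h1 h2
  rw [div_one] at h1 h2
  constructor
  · rw [div_mul_eq_mul_div, div_le_iff₀ (by norm_num)]; linarith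
  · rw [div_mul_eq_mul_div, le_div_iff₀ (by norm_num)]; linarith

theorem gamma_lt : Real.eulerMascheroniConstant < 0.577216 := by
  refine (le_gB 49).trans_lt ?_
  have h := log50_bounds.1
  have hH : harmonic 50 = 13943237577224054960759 / 3099044504245996706400 := by
    rw [harmonic]; norm_num [Finset.sum_range_succ]
  unfold gB gA
  rw [show (49 + 1 : ℕ) = 50 from rfl, hH]
  push_cast
  norm_num at h ⊢
  linarith

theorem lt_gamma : 0.57718 < Real.eulerMascheroniConstant := by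
  refine lt_of_lt_of_le ?_ (gA_le 49)
  have h := log50_bounds.2
  have hH : harmonic 50 = 13943237577224054960759 / 3099044504245996706400 := by
    rw [harmonic]; norm_num [Finset.sum_range_succ]
  unfold gA
  rw [show (49 + 1 : ℕ) = 50 from rfl, hH]
  push_cast
  norm_num at h ⊢
  linarith

end IA
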