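import Pool.Agent.Lib.Interval.Core

/-!
Kernel friendly enclosure of the logarithm (fixed point, 40 binary digits).
-/

namespace IA

def shd (n : ℕ) : ℕ := Nat.shiftRight n 40
def shu (n : ℕ) : ℕ := Nat.add (Nat.shiftRight n 40) 1

/-- one Horner step, rounded down -/
def stL (c z p : ℕ) : ℕ := Nat.add c (Nat.shiftRight (Nat.mul z p) 40)
/-- one Horner step, rounded up -/
def stU (c z p : ℕ) : ℕ := Nat.add c (Nat.add (Nat.shiftRight (Nat.mul z p) 40) 1)

def hoL (z : ℕ) : ℕ :=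
  stL 2199023255552 z (stL 733007751850 z (stL 439804651110 z (stL 314146179364 z (stL 244335917283 z
    (stL 199911205050 z (stL 169155635042 z (stL 146601550370 z 129354309150)))))))
def hoU (z : ℕ) : ℕ :=
  stU 2199023255552 z (stU 733007751851 z (stU 439804651111 z (stU 314146179365 z (stU 244335917284 z
    (stU 199911205051 z (stU 169155635043 z (stU 146601550371 z 129354309151)))))))

def lnLt (t : ℕ) : ℕ := shd (Nat.mul t (hoL (shd (Nat.mul t t))))
def lnUt (t : ℕ) : ℕ := Nat.add (shu (Nat.mul t (hoU (shu (Nat.mul t t))))) 2200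

/-- lower bound for `2^40 log (m / 2^40)`, `2^40 ≤ m ≤ 2^41` -/
def lnL (m : ℕ) : ℕ :=
  lnLt (Nat.div (Nat.shiftLeft (Nat.sub m 1099511627776) 40) (Nat.add m 1099511627776))
/-- upper bound for `2^40 log (m / 2^40)`, `2^40 ≤ m ≤ 2^41` -/
def lnU (m : ℕ) : ℕ :=
  lnUt (Nat.add (Nat.div (Nat.shiftLeft (Nat.sub m 1099511627776) 40) (Nat.add m 1099511627776)) 1)

/-- lower bound for `2^40 log (n / 2^40)`, `0 < n` -/
def logLo (n : ℕ) : ℤ :=
  cond (Nat.ble 40 (Nat.log2 n))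
    (Int.ofNat (Nat.add (Nat.mul (Nat.sub (Nat.log2 n) 40) 762123384499)
      (lnL (Nat.shiftRight n (Nat.sub (Nat.log2 n) 40)))))
    (Int.subNatNat (lnL (Nat.shiftLeft n (Nat.sub 40 (Nat.log2 n))))
      (Nat.mul (Nat.sub 40 (Nat.log2 n)) 762123385050))
/-- upper bound for `2^40 log (n / 2^40)`, `0 < n` -/
def logHi (n : ℕ) : ℤ :=
  cond (Nat.ble 40 (Nat.log2 n))
    (Int.ofNat (Nat.add (Nat.mul (Nat.sub (Nat.log2 n) 40) 762123385050)
      (lnU (Nat.add (Nat.shiftRight n (Nat.sub (Nat.log2 n) 40)) 1))))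
    (Int.subNatNat (lnU (Nat.shiftLeft n (Nat.sub 40 (Nat.log2 n))))
      (Nat.mul (Nat.sub 40 (Nat.log2 n)) 762123384499))

/-- enclosure of the logarithm of an interval with positive lower end -/
def log (a : I) : I :=
  match a.lo, a.hi with
  | Int.ofNat m, Int.ofNat n => ⟨logLo m, logHi n⟩
  | _, _ => ⟨0, 0⟩

theorem shiftRight_cast_le (n : ℕ) : ((Nat.shiftRight n 40 : ℕ) : ℝ) * (1099511627776 : ℝ) ≤ n := by
  have h : Nat.shiftRight n 40 = n / 1099511627776 := by
    have := Nat.shiftRight_eq_div_pow n 40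
    simpa using this
  rw [h]
  have := Nat.div_mul_le_self n 1099511627776
  exact_mod_cast this

theorem le_shiftRight_cast (n : ℕ) : (n : ℝ) ≤ ((Nat.shiftRight n 40 : ℕ) + 1 : ℝ) * (1099511627776 : ℝ) := by
  have h : Nat.shiftRight n 40 = n / 1099511627776 := by
    have := Nat.shiftRight_eq_div_pow n 40
    simpa using this
  rw [h]
  have := (Nat.lt_div_mul_add (a := n) (b := 1099511627776) (by norm_num)).le
  have h2 : n ≤ (n / 1099511627776 + 1) * 1099511627776 := by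
    rw [add_mul]; linarith
  exact_mod_cast h2

theorem stL_le {c z p : ℕ} {C Z P : ℝ} (hc : (c : ℝ) ≤ (1099511627776 : ℝ) * C) (hz : (z : ℝ) ≤ (1099511627776 : ℝ) * Z)
    (hp : (p : ℝ) ≤ (1099511627776 : ℝ) * P) : (stL c z p : ℝ) ≤ (1099511627776 : ℝ) * (C + Z * P) := by
  have h1 : ((Nat.shiftRight (Nat.mul z p) 40 : ℕ) : ℝ) * (1099511627776 : ℝ) ≤ ((Nat.mul z p : ℕ) : ℝ) :=
    shiftRight_cast_le _
  have h2 : ((Nat.mul z p : ℕ) : ℝ) = (z : ℝ) * p := by
    show ((z * p : ℕ) : ℝ) = _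
    push_cast; ring
  have h3 : (z : ℝ) * p ≤ ((1099511627776 : ℝ) * Z) * ((1099511627776 : ℝ) * P) :=
    mul_le_mul hz hp (Nat.cast_nonneg p) ((Nat.cast_nonneg z).trans hz)
  have h4 : ((Nat.shiftRight (Nat.mul z p) 40 : ℕ) : ℝ) ≤ (1099511627776 : ℝ) * (Z * P) := by
    have h5 : ((Nat.shiftRight (Nat.mul z p) 40 : ℕ) : ℝ) * (1099511627776 : ℝ) ≤ ((1099511627776 : ℝ) * (Z * P)) * (1099511627776 : ℝ) := by
      rw [h2] at h1; refine (h1.trans h3).trans (le_of_eq (by ring))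
    exact le_of_mul_le_mul_right h5 (by norm_num)
  show ((c + Nat.shiftRight (Nat.mul z p) 40 : ℕ) : ℝ) ≤ _
  push_cast
  linarith

theorem le_stU {c z p : ℕ} {C Z P : ℝ} (hc : (1099511627776 : ℝ) * C ≤ (c : ℝ)) (hz : (1099511627776 : ℝ) * Z ≤ (z : ℝ))
    (hp : (1099511627776 : ℝ) * P ≤ (p : ℝ)) (hP : 0 ≤ P) : (1099511627776 : ℝ) * (C + Z * P) ≤ (stU c z p : ℝ) := by
  have h1 : ((Nat.mul z p : ℕ) : ℝ) ≤ ((Nat.shiftRight (Nat.mul z p) 40 : ℕ) + 1 : ℝ) * (1099511627776 : ℝ) :=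
    le_shiftRight_cast _
  have h2 : ((Nat.mul z p : ℕ) : ℝ) = (z : ℝ) * p := by
    show ((z * p : ℕ) : ℝ) = _
    push_cast; ring
  have h3 : ((1099511627776 : ℝ) * Z) * ((1099511627776 : ℝ) * P) ≤ (z : ℝ) * p :=
    mul_le_mul hz hp (by positivity) (Nat.cast_nonneg z)
  have h4 : (1099511627776 : ℝ) * (Z * P) ≤ ((Nat.shiftRight (Nat.mul z p) 40 : ℕ) : ℝ) + 1 := by
    have h5 : ((1099511627776 : ℝ) * (Z * P)) * (1099511627776 : ℝ) ≤ (((Nat.shiftRight (Nat.mul z p) 40 : ℕ) : ℝ) + 1) * (1099511627776 : ℝ) := by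
      rw [h2] at h1; refine (le_of_eq (by ring)).trans (h3.trans h1)
    exact le_of_mul_le_mul_right h5 (by norm_num)
  show _ ≤ ((c + (Nat.shiftRight (Nat.mul z p) 40 + 1) : ℕ) : ℝ)
  push_cast
  linarith

/-- the exact Horner polynomial -/
noncomputable def hoR (Z : ℝ) : ℝ :=
  2 + Z * (2/3 + Z * (2/5 + Z * (2/7 + Z * (2/9 + Z * (2/11 + Z * (2/13 + Z * (2/15 + Z * (2/17))))))))

theorem hoL_le {z : ℕ} {Z : ℝ} (hz : (z : ℝ) ≤ (1099511627776 : ℝ) * Z) : (hoL z : ℝ) ≤ (1099511627776 : ℝ) * hoR Z := by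
  unfold hoL hoR
  refine stL_le (by norm_num) hz (stL_le (by norm_num) hz (stL_le (by norm_num) hz
    (stL_le (by norm_num) hz (stL_le (by norm_num) hz (stL_le (by norm_num) hz
    (stL_le (by norm_num) hz (stL_le (by norm_num) hz (by norm_num))))))))

theorem le_hoU {z : ℕ} {Z : ℝ} (hz : (1099511627776 : ℝ) * Z ≤ (z : ℝ)) (hZ : 0 ≤ Z) : (1099511627776 : ℝ) * hoR Z ≤ (hoU z : ℝ) := by
  unfold hoU hoR
  refine le_stU (by norm_num) hz (le_stU (by norm_num) hz (le_stU (by norm_num) hz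
    (le_stU (by norm_num) hz (le_stU (by norm_num) hz (le_stU (by norm_num) hz
    (le_stU (by norm_num) hz (le_stU (by norm_num) hz (by norm_num) (by norm_num)) ?_) ?_) ?_) ?_)
    ?_) ?_) ?_
  all_goals positivity

theorem shd_mul_le {z p : ℕ} {Z P : ℝ} (hz : (z : ℝ) ≤ (1099511627776 : ℝ) * Z) (hp : (p : ℝ) ≤ (1099511627776 : ℝ) * P) :
    (shd (Nat.mul z p) : ℝ) ≤ (1099511627776 : ℝ) * (Z * P) := by
  have h := stL_le (c := 0) (C := 0) (by norm_num) hz hp
  have e : stL 0 z p = shd (Nat.mul z p) := by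
    show 0 + _ = _
    rw [zero_add]; rfl
  rw [e] at h; simpa using h

theorem le_shu_mul {z p : ℕ} {Z P : ℝ} (hz : (1099511627776 : ℝ) * Z ≤ (z : ℝ)) (hp : (1099511627776 : ℝ) * P ≤ (p : ℝ)) (hP : 0 ≤ P) :
    (1099511627776 : ℝ) * (Z * P) ≤ (shu (Nat.mul z p) : ℝ) := by
  have h := le_stU (c := 0) (C := 0) (by norm_num) hz hp hP
  have e : stU 0 z p = shu (Nat.mul z p) := by
    show 0 + _ = _
    rw [zero_add]; rfl
  rw [e] at h; simpa using h

theorem sum_nine (x : ℝ) : x * hoR (x * x) = 2 * ∑ i ∈ Finset.range 9, x ^ (2 * i + 1) / (2 * i + 1) := by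
  simp only [Finset.sum_range_succ, Finset.sum_range_zero, hoR]
  push_cast
  ring

theorem lnLt_le {t : ℕ} {x : ℝ} (h : (t : ℝ) ≤ (1099511627776 : ℝ) * x) (hx1 : x < 1) :
    (lnLt t : ℝ) ≤ (1099511627776 : ℝ) * Real.log ((1 + x) / (1 - x)) := by
  have hx0 : 0 ≤ x := by
    have : (0 : ℝ) ≤ (1099511627776 : ℝ) * x := (Nat.cast_nonneg t).trans h
    linarith
  have h1 := shd_mul_le h h
  have h2 := hoL_le h1
  have h3 := shd_mul_le h h2
  have h4 := Real.sum_range_le_log_div hx0 hx1 9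
  have h5 := sum_nine x
  unfold lnLt
  refine h3.trans ?_
  have : x * hoR (x * x) ≤ Real.log ((1 + x) / (1 - x)) := by rw [h5]; linarith
  linarith

theorem le_lnUt {t : ℕ} {x : ℝ} (h : (1099511627776 : ℝ) * x ≤ (t : ℝ)) (hx0 : 0 ≤ x) (hx1 : x ≤ 1 / 3) :
    (1099511627776 : ℝ) * Real.log ((1 + x) / (1 - x)) ≤ (lnUt t : ℝ) := by
  have h1 := le_shu_mul h h hx0
  have h2 := le_hoU h1 (mul_nonneg hx0 hx0)
  have hho : 0 ≤ hoR (x * x) := by unfold hoR; positivity
  have h3 := le_shu_mul h h2 hho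
  have h4 := Real.log_div_le_sum_range_add hx0 (by linarith) 9
  have h5 := sum_nine x
  have h6 : x ^ (2 * 9 + 1) / (1 - x ^ 2) ≤ (1 / 3) ^ 19 / (8 / 9) := by
    have h7 : x ^ 2 ≤ 1 / 9 := by nlinarith
    have h8 : x ^ 19 ≤ (1 / 3 : ℝ) ^ 19 := pow_le_pow_left₀ hx0 hx1 19
    exact div_le_div₀ (by positivity) h8 (by norm_num) (by linarith)
  have h9 : (1099511627776 : ℝ) * (2 * ((1 / 3 : ℝ) ^ 19 / (8 / 9))) ≤ 2200 := by norm_num
  show _ ≤ ((shu (Nat.mul t (hoU (shu (Nat.mul t t)))) + 2200 : ℕ) : ℝ)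
  push_cast
  nlinarith

theorem lnL_le {m : ℕ} (hm : 1099511627776 ≤ m) : (lnL m : ℝ) ≤ (1099511627776 : ℝ) * Real.log (m / (1099511627776 : ℝ)) := by
  have hmR : (1099511627776 : ℝ) ≤ (m : ℝ) := by exact_mod_cast hm
  have hpos : (0 : ℝ) < m + (1099511627776 : ℝ) := by positivity
  set x : ℝ := (m - (1099511627776 : ℝ)) / (m + (1099511627776 : ℝ)) with hx
  have hx1 : x < 1 := by rw [hx, div_lt_one hpos]; linarith
  have e : (m : ℝ) / (1099511627776 : ℝ) = (1 + x) / (1 - x) := by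
    have h1 : 1 - x = 2 * (1099511627776 : ℝ) / (m + (1099511627776 : ℝ)) := by rw [hx]; field_simp; ring
    have h2 : 1 + x = 2 * m / (m + (1099511627776 : ℝ)) := by rw [hx]; field_simp; ring
    rw [h1, h2]; field_simp
  rw [e]
  unfold lnL
  refine lnLt_le ?_ hx1
  have h3 : Nat.shiftLeft (Nat.sub m 1099511627776) 40 = (m - 1099511627776) * 1099511627776 := by
    have := Nat.shiftLeft_eq (m - 1099511627776) 40
    simpa using this
  rw [h3]
  show (((m - 1099511627776) * 1099511627776 / (m + 1099511627776) : ℕ) : ℝ) ≤ _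
  have h4 := Nat.div_mul_le_self ((m - 1099511627776) * 1099511627776) (m + 1099511627776)
  have h5 : (((m - 1099511627776) * 1099511627776 / (m + 1099511627776) : ℕ) : ℝ) * (m + (1099511627776 : ℝ))
      ≤ (m - (1099511627776 : ℝ)) * (1099511627776 : ℝ) := by
    have h6 : (((m - 1099511627776) * 1099511627776 / (m + 1099511627776) * (m + 1099511627776) : ℕ) : ℝ)
      ≤ (((m - 1099511627776) * 1099511627776 : ℕ) : ℝ) := by exact_mod_cast h4
    push_cast [Nat.cast_sub hm] at h6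
    exact h6
  rw [hx, mul_div_assoc', le_div_iff₀ hpos]
  linarith

theorem le_lnU {m : ℕ} (hm : 1099511627776 ≤ m) (hm2 : m ≤ 2199023255552) :
    (1099511627776 : ℝ) * Real.log (m / (1099511627776 : ℝ)) ≤ (lnU m : ℝ) := by
  have hmR : (1099511627776 : ℝ) ≤ (m : ℝ) := by exact_mod_cast hm
  have hmR2 : (m : ℝ) ≤ 2 * (1099511627776 : ℝ) := by
    have : (m : ℝ) ≤ 2199023255552 := by exact_mod_cast hm2
    linarith
  have hpos : (0 : ℝ) < m + (1099511627776 : ℝ) := by positivity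
  set x : ℝ := (m - (1099511627776 : ℝ)) / (m + (1099511627776 : ℝ)) with hx
  have hx0 : 0 ≤ x := by rw [hx]; exact div_nonneg (by linarith) hpos.le
  have hx1 : x ≤ 1 / 3 := by rw [hx, div_le_iff₀ hpos]; linarith
  have e : (m : ℝ) / (1099511627776 : ℝ) = (1 + x) / (1 - x) := by
    have h1 : 1 - x = 2 * (1099511627776 : ℝ) / (m + (1099511627776 : ℝ)) := by rw [hx]; field_simp; ring
    have h2 : 1 + x = 2 * m / (m + (1099511627776 : ℝ)) := by rw [hx]; field_simp; ring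
    rw [h1, h2]; field_simp
  rw [e]
  unfold lnU
  refine le_lnUt ?_ hx0 hx1
  have h3 : Nat.shiftLeft (Nat.sub m 1099511627776) 40 = (m - 1099511627776) * 1099511627776 := by
    have := Nat.shiftLeft_eq (m - 1099511627776) 40
    simpa using this
  rw [h3]
  show _ ≤ (((m - 1099511627776) * 1099511627776 / (m + 1099511627776) + 1 : ℕ) : ℝ)
  have h4 := (Nat.lt_div_mul_add (a := (m - 1099511627776) * 1099511627776)
    (b := (m + 1099511627776)) (by positivity)).le
  have h6 : (((m - 1099511627776) * 1099511627776 : ℕ) : ℝ) ≤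
    (((m - 1099511627776) * 1099511627776 / (m + 1099511627776) * (m + 1099511627776)
      + (m + 1099511627776) : ℕ) : ℝ) := by exact_mod_cast h4
  push_cast [Nat.cast_sub hm] at h6
  push_cast
  rw [hx, mul_div_assoc', div_le_iff₀ hpos]
  linarith

theorem log2_lo : (762123384499 : ℝ) ≤ (1099511627776 : ℝ) * Real.log 2 := by
  have := Real.log_two_gt_d9
  linarith
theorem log2_hi : (1099511627776 : ℝ) * Real.log 2 ≤ (762123385050 : ℝ) := by
  have := Real.log_two_lt_d9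
  linarith

theorem logLo_eq (n : ℕ) : logLo n = if 40 ≤ Nat.log2 n then
    (((Nat.log2 n - 40) * 762123384499 + lnL (Nat.shiftRight n (Nat.log2 n - 40)) : ℕ) : ℤ) else
    ((lnL (Nat.shiftLeft n (40 - Nat.log2 n)) : ℕ) : ℤ) - (((40 - Nat.log2 n) * 762123385050 : ℕ) : ℤ) := by
  unfold logLo
  generalize Nat.log2 n = k
  cases hc : Nat.ble 40 k
  · have : ¬ (40 ≤ k) := by
      intro h; rw [← Nat.ble_eq] at h; rw [h] at hc; exact absurd hc (by simp)
    rw [if_neg this, cond_false, Int.subNatNat_eq_coe]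
    generalize lnL (Nat.shiftLeft n (Nat.sub 40 k)) = A
    rfl
  · have hle : 40 ≤ k := by rwa [Nat.ble_eq] at hc
    rw [if_pos hle, cond_true]
    generalize 762123384499 = c
    generalize lnL = f
    rfl

theorem logHi_eq (n : ℕ) : logHi n = if 40 ≤ Nat.log2 n then
    (((Nat.log2 n - 40) * 762123385050 + lnU (Nat.shiftRight n (Nat.log2 n - 40) + 1) : ℕ) : ℤ) else
    ((lnU (Nat.shiftLeft n (40 - Nat.log2 n)) : ℕ) : ℤ) - (((40 - Nat.log2 n) * 762123384499 : ℕ) : ℤ) := by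
  unfold logHi
  generalize Nat.log2 n = k
  cases hc : Nat.ble 40 k
  · have : ¬ (40 ≤ k) := by
      intro h; rw [← Nat.ble_eq] at h; rw [h] at hc; exact absurd hc (by simp)
    rw [if_neg this, cond_false, Int.subNatNat_eq_coe]
    generalize lnU (Nat.shiftLeft n (Nat.sub 40 k)) = A
    rfl
  · have hle : 40 ≤ k := by rwa [Nat.ble_eq] at hc
    rw [if_pos hle, cond_true]
    generalize 762123385050 = c
    generalize lnU = f
    rfl

theorem logLo_le {n : ℕ} (hn : 0 < n) : (logLo n : ℝ) ≤ (1099511627776 : ℝ) * Real.log (n / (1099511627776 : ℝ)) := by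
  rw [logLo_eq]
  set k := Nat.log2 n with hk
  have hk1 : 2 ^ k ≤ n := Nat.log2_self_le hn.ne'
  by_cases hc : 40 ≤ k
  swap
  · rw [if_neg hc]
    obtain ⟨d, hd⟩ : ∃ d, 40 = k + d := ⟨40 - k, by omega⟩
    have hdk : 40 - k = d := by omega
    rw [hdk]
    have hsl : Nat.shiftLeft n d = n * 2 ^ d := Nat.shiftLeft_eq n d
    have hge : 1099511627776 ≤ Nat.shiftLeft n d := by
      rw [hsl]
      calc 1099511627776 = 2 ^ 40 := by norm_num
        _ = 2 ^ k * 2 ^ d := by rw [← pow_add, ← hd]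
        _ ≤ n * 2 ^ d := Nat.mul_le_mul_right _ hk1
    have h1 := lnL_le hge
    rw [hsl] at h1 ⊢
    have hnR : (0 : ℝ) < n := by exact_mod_cast hn
    have h2 : Real.log (((n * 2 ^ d : ℕ) : ℝ) / (1099511627776 : ℝ)) = Real.log (n / (1099511627776 : ℝ)) + d * Real.log 2 := by
      push_cast
      rw [mul_div_right_comm, Real.log_mul (by positivity) (by positivity), Real.log_pow]
    rw [h2] at h1
    push_cast
    have h3 : (d : ℝ) * ((1099511627776 : ℝ) * Real.log 2) ≤ d * 762123385050 :=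
      mul_le_mul_of_nonneg_left log2_hi (Nat.cast_nonneg d)
    linarith
  · rw [if_pos hc]
    obtain ⟨d, hd⟩ : ∃ d, k = 40 + d := ⟨k - 40, by omega⟩
    have hdk : k - 40 = d := by omega
    rw [hdk]
    have hsr : Nat.shiftRight n d = n / 2 ^ d := Nat.shiftRight_eq_div_pow n d
    have hge : 1099511627776 ≤ Nat.shiftRight n d := by
      rw [hsr, Nat.le_div_iff_mul_le (by positivity)]
      calc 1099511627776 * 2 ^ d = 2 ^ 40 * 2 ^ d := by norm_num
        _ = 2 ^ k := by rw [← pow_add, ← hd]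
        _ ≤ n := hk1
    have h1 := lnL_le hge
    rw [hsr] at h1 ⊢
    have hnR : (0 : ℝ) < n := by exact_mod_cast hn
    rw [hsr] at hge
    have hq : (0 : ℝ) < ((n / 2 ^ d : ℕ) : ℝ) := by
      have : 0 < n / 2 ^ d := lt_of_lt_of_le (by norm_num) hge
      exact_mod_cast this
    have hle2 : ((n / 2 ^ d : ℕ) : ℝ) * 2 ^ d ≤ n := by
      have := Nat.div_mul_le_self n (2 ^ d)
      exact_mod_cast this
    have h2 : Real.log (((n / 2 ^ d : ℕ) : ℝ) / (1099511627776 : ℝ)) + d * Real.log 2 ≤ Real.log (n / (1099511627776 : ℝ)) := by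
      rw [← Real.log_pow, ← Real.log_mul (by positivity) (by positivity)]
      apply Real.log_le_log (by positivity)
      rw [div_mul_eq_mul_div]
      exact div_le_div_of_nonneg_right hle2 (by norm_num)
    have h3 : (d : ℝ) * 762123384499 ≤ d * ((1099511627776 : ℝ) * Real.log 2) :=
      mul_le_mul_of_nonneg_left log2_lo (Nat.cast_nonneg d)
    push_cast
    nlinarith

theorem le_logHi {n : ℕ} (hn : 0 < n) : (1099511627776 : ℝ) * Real.log (n / (1099511627776 : ℝ)) ≤ (logHi n : ℝ) := by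
  rw [logHi_eq]
  set k := Nat.log2 n with hk
  have hk1 : 2 ^ k ≤ n := Nat.log2_self_le hn.ne'
  have hk2 : n < 2 ^ (k + 1) := Nat.lt_log2_self
  by_cases hc : 40 ≤ k
  swap
  · rw [if_neg hc]
    obtain ⟨d, hd⟩ : ∃ d, 40 = k + d := ⟨40 - k, by omega⟩
    have hdk : 40 - k = d := by omega
    rw [hdk]
    have hsl : Nat.shiftLeft n d = n * 2 ^ d := Nat.shiftLeft_eq n d
    have hge : 1099511627776 ≤ Nat.shiftLeft n d := by
      rw [hsl]
      calc 1099511627776 = 2 ^ 40 := by norm_num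
        _ = 2 ^ k * 2 ^ d := by rw [← pow_add, ← hd]
        _ ≤ n * 2 ^ d := Nat.mul_le_mul_right _ hk1
    have hle' : Nat.shiftLeft n d ≤ 2199023255552 := by
      rw [hsl]
      calc n * 2 ^ d ≤ 2 ^ (k + 1) * 2 ^ d := Nat.mul_le_mul_right _ hk2.le
        _ = 2 ^ 41 := by rw [← pow_add]; congr 1; omega
        _ = 2199023255552 := by norm_num
    have h1 := le_lnU hge hle'
    rw [hsl] at h1 ⊢
    have hnR : (0 : ℝ) < n := by exact_mod_cast hn
    have h2 : Real.log (((n * 2 ^ d : ℕ) : ℝ) / (1099511627776 : ℝ)) = Real.log (n / (1099511627776 : ℝ)) + d * Real.log 2 := by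
      push_cast
      rw [mul_div_right_comm, Real.log_mul (by positivity) (by positivity), Real.log_pow]
    rw [h2] at h1
    push_cast
    have h3 : (d : ℝ) * 762123384499 ≤ d * ((1099511627776 : ℝ) * Real.log 2) :=
      mul_le_mul_of_nonneg_left log2_lo (Nat.cast_nonneg d)
    linarith
  · rw [if_pos hc]
    obtain ⟨d, hd⟩ : ∃ d, k = 40 + d := ⟨k - 40, by omega⟩
    have hdk : k - 40 = d := by omega
    rw [hdk]
    have hsr : Nat.shiftRight n d = n / 2 ^ d := Nat.shiftRight_eq_div_pow n d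
    have hge : 1099511627776 ≤ Nat.shiftRight n d + 1 := by
      rw [hsr]
      have : 1099511627776 ≤ n / 2 ^ d := by
        rw [Nat.le_div_iff_mul_le (by positivity)]
        calc 1099511627776 * 2 ^ d = 2 ^ 40 * 2 ^ d := by norm_num
          _ = 2 ^ k := by rw [← pow_add, ← hd]
          _ ≤ n := hk1
      omega
    have hle' : Nat.shiftRight n d + 1 ≤ 2199023255552 := by
      rw [hsr]
      have : n / 2 ^ d < 2199023255552 := by
        rw [Nat.div_lt_iff_lt_mul (by positivity)]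
        calc n < 2 ^ (k + 1) := hk2
          _ = 2 ^ 41 * 2 ^ d := by rw [← pow_add]; congr 1; omega
          _ = 2199023255552 * 2 ^ d := by norm_num
      omega
    have h1 := le_lnU hge hle'
    rw [hsr] at h1 ⊢
    have hnR : (0 : ℝ) < n := by exact_mod_cast hn
    have hle2 : (n : ℝ) ≤ ((n / 2 ^ d + 1 : ℕ) : ℝ) * 2 ^ d := by
      have := (Nat.lt_div_mul_add (a := n) (b := 2 ^ d) (by positivity)).le
      have h2 : n ≤ (n / 2 ^ d + 1) * 2 ^ d := by rw [add_mul, one_mul]; exact this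
      exact_mod_cast h2
    have h2 : Real.log (n / (1099511627776 : ℝ)) ≤ Real.log (((n / 2 ^ d + 1 : ℕ) : ℝ) / (1099511627776 : ℝ)) + d * Real.log 2 := by
      have hq : (0 : ℝ) < ((n / 2 ^ d + 1 : ℕ) : ℝ) := by positivity
      rw [← Real.log_pow, ← Real.log_mul (by positivity) (by positivity)]
      apply Real.log_le_log (by positivity)
      rw [div_mul_eq_mul_div]
      exact div_le_div_of_nonneg_right hle2 (by norm_num)
    have h3 : (d : ℝ) * ((1099511627776 : ℝ) * Real.log 2) ≤ d * 762123385050 :=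
      mul_le_mul_of_nonneg_left log2_hi (Nat.cast_nonneg d)
    generalize lnU (n / 2 ^ d + 1) = A at h1 ⊢
    generalize Real.log (((n / 2 ^ d + 1 : ℕ) : ℝ) / (1099511627776 : ℝ)) = B at h1 h2
    push_cast
    have h4 := mul_le_mul_of_nonneg_left h2 (show (0 : ℝ) ≤ (1099511627776 : ℝ) by norm_num)
    linarith

theorem log_mem {x : ℝ} {a : I} (hx : a.Mem x) (ha : 0 < a.lo) : (log a).Mem (Real.log x) := by
  obtain ⟨h1, h2⟩ := hx
  have hal : (0 : ℝ) < (a.lo : ℝ) := by exact_mod_cast ha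
  have hxM : 0 < x * (1099511627776 : ℝ) := hal.trans_le h1
  have hx0 : 0 < x := by
    rcases lt_or_ge 0 x with h | h
    · exact h
    · nlinarith
  have hah : (0 : ℝ) < (a.hi : ℝ) := hxM.trans_le h2
  have hah' : 0 < a.hi := by exact_mod_cast hah
  obtain ⟨m, hm⟩ : ∃ m : ℕ, a.lo = Int.ofNat m := ⟨a.lo.toNat, by simp; omega⟩
  obtain ⟨n, hn⟩ : ∃ n : ℕ, a.hi = Int.ofNat n := ⟨a.hi.toNat, by simp; omega⟩
  have hm0 : 0 < m := by
    have := ha; rw [hm] at this; simpa using this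
  have hn0 : 0 < n := by
    have := hah'; rw [hn] at this; simpa using this
  have hm1 : (m : ℝ) ≤ x * (1099511627776 : ℝ) := by rw [hm] at h1; simpa using h1
  have hn1 : x * (1099511627776 : ℝ) ≤ (n : ℝ) := by rw [hn] at h2; simpa using h2
  have e : log a = ⟨logLo m, logHi n⟩ := by
    unfold log; rw [hm, hn]
  rw [e]
  constructor
  · show (logLo m : ℝ) ≤ Real.log x * (1099511627776 : ℝ)
    refine (logLo_le hm0).trans ?_
    rw [mul_comm]
    refine mul_le_mul_of_nonneg_right ?_ (by norm_num)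
    apply Real.log_le_log (by positivity)
    rw [div_le_iff₀ (by norm_num)]; exact hm1
  · show Real.log x * (1099511627776 : ℝ) ≤ (logHi n : ℝ)
    refine le_trans ?_ (le_logHi hn0)
    rw [mul_comm]
    refine mul_le_mul_of_nonneg_left ?_ (by norm_num)
    apply Real.log_le_log hx0
    rw [le_div_iff₀ (by norm_num)]; exact hn1

end IA
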